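import Pool.Agent.Helper50.QuadA.Block
import Pool.Agent.Helper50.Quad.Base

/-!
# Joint Artin-Schreier normal forms on the base
-/

set_option autoImplicit false
set_option linter.unusedVariables false
set_option linter.unusedSectionVars false

universe u

open Finsupp Module Pool.Agent.W558 Pool.Agent.TH214 Pool.Agent.TH214.V Pool.Agent.TH214.SD
  Pool.Agent.Helper50.Add Pool.Agent.TH188.WP Pool.Agent.TH188.WQ Pool.Agent.TH188.VT
  Pool.Agent.TH188.VQ Pool.Agent.W558.WT AlgebraicGeometry CategoryTheory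
  Pool.Agent.Helper50.Quad

namespace Pool.Agent.Helper50.QuadA

section gen

variable {p : ℕ} [Fact p.Prime] {k K : Type u} [Field k] [PerfectField k] [CharP k p] [Field K]
  [Algebra k K] {m : ℕ} {E : Fin m → IntermediateField k K}

/-- The base as an abstract field. -/
theorem sch_gma' (hE : AreIndependentSurfaceFields E)
    (htr : Algebra.trdeg k K < Cardinal.aleph0) (f : ∀ i, E i)
    {h : ℕ} (uu : Fin h → ∀ i, E i) (huu : ∀ b i, uu b i ≠ 0) (u : Fin h → K)
    (hu : ∀ b, u b = ∏ i, (uu b i : K))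
    {n : ℕ} (y : Fin n → K) (hy0 : ∀ j, y j ≠ 0) {d' c : ℕ} (ρ : Fin d' → Fin n)
    (hcd : c + d' = n) (hind : AlgebraicIndependent (cps E) (y ∘ ρ))
    (σ τ : Type) [Finite σ] [Fintype τ]
    (G : σ → (Fin h ⊕ Fin n → ℤ) →₀ k) (F : τ → (Fin h ⊕ Fin n → ℤ) →₀ k) (tw : τ → Prop)
    (hG : ∀ s, lv (G s) (Sum.elim u y) = 0)
    (hND : NDV G F (fun j => j.isRight = true) tw c)
    (hun : ∀ t, ¬ tw t → (∀ s, ∀ m ∈ (G s).support, ∀ j, ¬ j.isRight = true →
      m j = 0) ∧ ∀ m ∈ (F t).support, ∀ j, ¬ j.isRight = true → m j = 0)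
    (S : Type) [Fintype S] (s : S → ∀ i, E i)
    (hs : ∀ b i, s b i ≠ 0) {l : ℕ} {x : Fin l → K} (hx : AlgebraicIndependent
      (IntermediateField.adjoin k (Set.range y ∪ ⋃ i, (E i : Set K))) x) :
    ∃ (K0 : Type u) (_ : Field K0) (_ : Algebra k K0) (_ : Algebra K0 K)
      (_ : IsScalarTower k K0 K) (d1 : ℕ) (f0 : Fin m → K0) (Fτ : τ → K0) (g1 : S → K0)
      (y1 : Fin n → K0),
      Algebra.trdeg k K0 = d1 ∧ AlgebraicIndependent K0 x ∧
      (∀ i, ∀ z ∈ E i, z ∈ (algebraMap K0 K).range) ∧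
      (∀ b, algebraMap K0 K (g1 b) = ∏ i, (s b i : K)) ∧ (∀ j, algebraMap K0 K (y1 j) = y j) ∧
      (∀ t, algebraMap K0 K (Fτ t) = lv (F t) (Sum.elim u y)) ∧
      (∀ i, algebraMap K0 K (f0 i) = (f i : K)) ∧
      GMA p k (Sum.elim f0 Fτ) (Sum.elim g1 y1) := by
  classical
  have hfin : ∀ (L : Type u) [Field L] [Algebra k L] (φ : L →ₐ[k] K),
      ∃ d0 : ℕ, Algebra.trdeg k L = d0 := by
    intro L _ _ φ
    have h3 : Algebra.trdeg k L ≤ Algebra.trdeg k K :=
      _root_.trdeg_le_of_injective φ φ.injective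
    exact Cardinal.lt_aleph0.1 (h3.trans_lt htr)
  obtain ⟨d0, hd0⟩ := hfin (cps E) (cps E).val
  let g2 : Fin h ⊕ S → K := Sum.elim u fun b => ∏ i, (s b i : K)
  let ι2 : (Fin h ⊕ Fin n) ↪ (Fin h ⊕ S) ⊕ Fin n :=
    ⟨Sum.map Sum.inl id, Function.Injective.sumMap Sum.inl_injective Function.injective_id⟩
  have hright : ∀ j, (ι2 j).isRight = j.isRight := by
    intro j
    rcases j with q | q <;> rfl
  have hz : (fun j => Sum.elim g2 y (ι2 j)) = Sum.elim u y := by
    funext j
    rcases j with q | q <;> rfl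
  obtain ⟨f', F', g', hf', hF', hg', hGM⟩ := Pool.Agent.TH214.U.sch_gmaE (p := p) hE hd0 f
    (Fin h ⊕ S)
    (Sum.elim uu s) (by
      rintro (b | b) i
      · exact huu b i
      · exact hs b i) g2 (by
      rintro (b | b)
      · exact hu b
      · rfl) y hy0 ρ hcd hind (Fin h ⊕ Fin n) ι2 σ τ G F tw
    (by
      intro s
      rw [hz]
      exact hG s)
    (by
      have h1 : (fun j => (ι2 j).isRight = true) =
          fun j : Fin h ⊕ Fin n => j.isRight = true := by
        funext j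
        rw [hright]
      rw [h1]
      exact hND)
    (by
      intro t ht
      simp only [hright]
      exact hun t ht)
  obtain ⟨d1, hd1⟩ := hfin (IntermediateField.adjoin (cps E) (Set.range y))
    ((IntermediateField.adjoin (cps E) (Set.range y)).val.restrictScalars k)
  have hGM2 := hGM.reindex id Function.injective_id
    (Sum.elim (fun b => Sum.inl (Sum.inr b)) Sum.inr : S ⊕ Fin n → (Fin h ⊕ S) ⊕ Fin n)
  have h2 : g' ∘ (Sum.elim (fun b => Sum.inl (Sum.inr b)) Sum.inr :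
      S ⊕ Fin n → (Fin h ⊕ S) ⊕ Fin n) =
      Sum.elim (fun b => g' (Sum.inl (Sum.inr b))) (fun j => g' (Sum.inr j)) := by
    funext j
    rcases j with q | q <;> rfl
  rw [h2] at hGM2
  refine ⟨IntermediateField.adjoin (cps E) (Set.range y), inferInstance, inferInstance,
    inferInstance, IsScalarTower.of_algebraMap_eq fun c => rfl, d1, f', F',
    fun b => g' (Sum.inl (Sum.inr b)), fun j => g' (Sum.inr j), hd1, ind_adjoin hx, ?_,
    fun b => hg' _, fun j => hg' _, fun t => (hF' t).trans (by rw [hz]), hf', hGM2⟩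
  intro i z hz
  have h3 : z ∈ cps E := mem_cps E i ⟨z, hz⟩
  exact ⟨algebraMap (cps E) (IntermediateField.adjoin (cps E) (Set.range y)) ⟨z, h3⟩, rfl⟩

end gen

end Pool.Agent.Helper50.QuadA
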