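import Pool.Agent.Helper50.QuadA.Gm
import Pool.Agent.Helper50.Quad.Block

/-!
# Joint Artin-Schreier normal forms over the field of rational functions
-/

set_option autoImplicit false
set_option linter.unusedVariables false
set_option linter.unusedSectionVars false

universe u

open Finsupp Module Pool.Agent.W558 Pool.Agent.W177.WD Pool.Agent.TH214 Pool.Agent.TH214.V
  Pool.Agent.Helper50.Add Pool.Agent.TH188.WP Pool.Agent.TH188.WQ Pool.Agent.TH188.VT
  Pool.Agent.TH188.VQ Pool.Agent.Helper50.Quad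

namespace Pool.Agent.Helper50.QuadA

section un

variable {r : ℕ} {B : Type} [Fintype B] [DecidableEq B]
  {k₀ : Type*} {k K : Type u} [Field k₀] [Finite k₀] [Field k] [Field K] [Algebra k₀ k]
  [Algebra k K] [Algebra k₀ K] [IsScalarTower k₀ k K] {p : ℕ} [Fact p.Prime] [CharP k p]

/-- The equations involve only the variables `y j`. -/
lemma gs_un {g : Fin r → K} (e : Sg p (k₀ := k₀) g) :
    ∀ m ∈ (Gs (k₀ := k₀) (k := k) p B g e).support, ∀ j : B ⊕ Fin r, ¬ j.isRight = true →
      m j = 0 := by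
  classical
  have hp : p.Prime := Fact.out
  intro m hm j hj
  obtain ⟨b, rfl⟩ : ∃ b, j = Sum.inl b := by
    rcases j with b | j
    · exact ⟨b, rfl⟩
    · exact absurd rfl hj
  rcases e with c | ij
  · have h1 : m ∈ (linF k (Function.Embedding.inr : Fin r ↪ B ⊕ Fin r) c.1).support := hm
    rw [linF_support, Finset.mem_map] at h1
    obtain ⟨i, -, rfl⟩ := h1
    change (Pi.single (Sum.inr i) (1 : ℤ) : B ⊕ Fin r → ℤ) (Sum.inl b) = 0
    exact Pi.single_eq_of_ne (by simp) _
  · have h1 : m ∈ (biF k (Pi.single (Sum.inr ij.1.2) 1)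
        (Pi.single (Sum.inr ij.1.1) (p : ℤ)) : (B ⊕ Fin r → ℤ) →₀ k).support := hm
    rw [biF_support (ne_bs hp _ _), Finset.mem_insert, Finset.mem_singleton] at h1
    rcases h1 with rfl | rfl
    · exact Pi.single_eq_of_ne (by simp) _
    · exact Pi.single_eq_of_ne (by simp) _

end un

section block

variable {p : ℕ} [Fact p.Prime] {k E1 K1 : Type u} [Field k] [CharP k p] [Field E1] [Field K1]
  [Algebra k E1] [Algebra k K1] [Algebra E1 K1] [IsScalarTower k E1 K1] {l : ℕ}

/-- The joint normal form over the field of rational functions in the `x i`. -/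
theorem gma_block {d0 : ℕ} (htr : Algebra.trdeg k E1 = d0) {x : Fin l → K1}
    (hind : AlgebraicIndependent E1 x) (hgen : IntermediateField.adjoin E1 (Set.range x) = ⊤)
    {ι B : Type} [Fintype B] {F : ι → E1} {g : B → E1} (h : GMA p k F g) {f : K1}
    (hf : f ∈ pQuadratics p k x) {S : Type} [Finite S] (bS : S → K1)
    (hbS : ∀ i, IsPolynomialProduct p k x (bS i)) :
    GMA p k (Sum.elim (fun i => algebraMap E1 K1 (F i)) (fun _ : Unit => f))
        (Sum.elim (fun b => algebraMap E1 K1 (g b)) bS) := by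
  classical
  have hcK : CharP K1 p := charP_of_injective_algebraMap (algebraMap k K1).injective p
  obtain ⟨N1, hN1, D1, h1⟩ := quad_mem p x hf
  have h2 : ∀ i, ∃ N, 0 < N ∧ ∃ D, ∀ N', 0 < N' → N ∣ N' → ∀ D', D ≤ D' →
      bS i ∈ Submonoid.closure
        {g : K1 | g ≠ 0 ∧ (g ∈ Vm p x k N' D' ∨ g⁻¹ ∈ Vm p x k N' D')} :=
    fun i => prod_mem' p x (hbS i)
  cases nonempty_fintype S
  choose N2 hN2 D2 h2 using h2
  let N := N1 * ∏ i, N2 i
  let D := D1 + ∑ i, D2 i
  have hN : 0 < N := Nat.mul_pos hN1 (Finset.prod_pos fun i _ => hN2 i)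
  have hfin : Finite (kN p k N) := kN_finite p k hN
  have hfd := Vm_fd (k := k) p x N D
  have hVf : Finite (Vm p x k N D) := Module.finite_of_finite (kN p k N)
  have hVf' : Finite {v : Vm p x k N D // v ≠ 0} := Subtype.finite
  obtain ⟨r, ⟨εr⟩⟩ := Finite.exists_equiv_fin {v : Vm p x k N D // v ≠ 0}
  let y : Fin r → K1 := fun i => ((εr.symm i).1 : K1)
  have hy0 : ∀ i, y i ≠ 0 := fun i h0 => (εr.symm i).2 (Subtype.ext h0)
  have hyV : ∀ i, y i ∈ Vm p x k N D := fun i => (εr.symm i).1.2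
  have hys : ∀ v ∈ Vm p x k N D, v ≠ 0 → ∃ i, y i = v := by
    intro v hv hv0
    refine ⟨εr ⟨⟨v, hv⟩, fun h0 => hv0 (congrArg Subtype.val h0)⟩, ?_⟩
    change ((εr.symm (εr _)).1 : K1) = v
    rw [Equiv.symm_apply_apply]
  have h1V : (1 : K1) ∈ Vm p x k N D := Submodule.subset_span (Set.mem_insert _ _)
  have hcl : ∀ i, ∃ e : Fin r → ℤ, bS i = ∏ j, y j ^ e j := fun i =>
    closure_exp (V := (Vm p x k N D : Set K1)) hy0 hys
      (h2 i N hN ((Finset.dvd_prod_of_mem _ (Finset.mem_univ i)).trans (Dvd.intro_left _ rfl)) D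
        ((Finset.single_le_sum (f := D2) (fun _ _ => Nat.zero_le _)
          (Finset.mem_univ i)).trans (Nat.le_add_left _ _)))
  choose ex hex using hcl
  obtain ⟨s, v, v', hfv⟩ := h1 N hN (Dvd.intro _ rfl) D (Nat.le_add_right _ _)
  -- the elements `x i`
  have hxe : ∀ i, ∃ j, y j = x i := fun i => hys _ (Vm_x p x N D i) (hind.ne_zero i)
  choose ix hix using hxe
  have hlr : l ≤ r := by
    have hinj : Function.Injective ix := by
      intro i j hij
      have h1 : x i = x j := by rw [← hix, ← hix, hij]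
      exact hind.injective h1
    have h1 := Fintype.card_le_of_injective ix hinj
    simpa using h1
  have hgen' : IntermediateField.adjoin E1 (Set.range y) = ⊤ := by
    rw [eq_top_iff, ← hgen]
    refine IntermediateField.adjoin.mono E1 _ _ ?_
    rintro _ ⟨i, rfl⟩
    exact ⟨ix i, hix i⟩
  obtain ⟨b0, hb0⟩ := exists_dn (K0 := E1) htr
  have hdn : ∃ b : Fin (d0 + l) → K1, AlgebraicIndependent k b := by
    have hb1 : AlgebraicIndependent k (fun i => algebraMap E1 K1 (b0 i)) :=
      hb0.map' (f := IsScalarTower.toAlgHom k E1 K1) (algebraMap E1 K1).injective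
    have h1 := hb1.sumElim_of_tower (S := E1) (y := x)
      (by rintro _ ⟨i, rfl⟩; exact ⟨b0 i, rfl⟩) hind
    let ε : Fin (d0 + l) ≃ Fin l ⊕ Fin d0 := finSumFinEquiv.symm.trans (Equiv.sumComm _ _)
    exact ⟨_, h1.comp ε ε.injective⟩
  have hfinSg : Finite (Sg p (k₀ := kN p k N) y) := by
    have : Finite (Fin r →₀ kN p k N) := Finite.of_equiv _ Finsupp.equivFunOnFinite.symm
    infer_instance
  obtain ⟨Nσ, ⟨ε⟩⟩ := Finite.exists_equiv_fin (Sg p (k₀ := kN p k N) y)
  obtain ⟨C, hC⟩ : ∃ C, C + l = r := ⟨r - l, by omega⟩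
  have hND := ndv_gs (B := B) (k₀ := kN p k N) (k := k) (p := p) (l := l) (Vm p x k N D) hyV hys
    (Vm_rank p x hN D) hC ε.symm
  have hG := gmga_relative p (c := C) (d := d0 + l) htr
    (j1' := IsScalarTower.toAlgHom k E1 K1) hy0 (evm_gen hgen') (by omega) hdn h
    (fun e => Gs (k₀ := kN p k N) (k := k) p B y (ε.symm e)) (fun e => gs_lv _ _) hND
    (fun e => gs_un _) (eXA B r)
  -- the monomials
  have hmo : ∀ {ι' : Type} {F' : ι' → K1},
      GMA p k F' (Sum.elim (fun b => (IsScalarTower.toAlgHom k E1 K1) (g b)) y) →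
      GMA p k F' (Sum.elim (fun b => algebraMap E1 K1 (g b)) bS) := by
    rintro ι' F' ⟨T, I, hT, hI, M, n, a, hh, Γ, h3, h4, h5⟩
    refine ⟨T, I, hT, hI, M, n, a, hh, Sum.elim (fun b => Γ (Sum.inl b))
      (fun i => fun c => ∑ j, ex i j * Γ (Sum.inr j) c), h3, ?_, h5⟩
    rintro (b | i) t
    · exact h4 (Sum.inl b) t
    · choose w w0 wA wi hw using fun j => h4 (Sum.inr j) t
      refine ⟨∏ j, w j ^ ex i j, Finset.prod_ne_zero_iff.2 fun j _ => zpow_ne_zero _ (w0 j),
        (M.A t).prod_mem fun j _ => zpow_mem_of (wA j) (Or.inr (wi j)), ?_, ?_⟩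
      · rw [← Finset.prod_inv_distrib]
        refine (M.A t).prod_mem fun j _ => ?_
        rw [← zpow_neg]
        exact zpow_mem_of (wA j) (Or.inr (wi j))
      · change bS i = _ * ∏ c, M.x t c ^ (∑ j, ex i j * Γ (Sum.inr j) c)
        rw [hex i, prod_zpow_comm (M.x t) (M.x0 t) (fun j => Γ (Sum.inr j)) (ex i),
          ← Finset.prod_mul_distrib]
        refine Finset.prod_congr rfl fun j _ => ?_
        have h8 : y j = w j * ∏ i, M.x t i ^ Γ (Sum.inr j) i := hw j
        rw [h8, mul_zpow]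
  have hq := gma_quad (k₀ := kN p k N) (k := k) (p := p) hyV hys h1V v v' ε.symm hG
  have h3 := hmo hq
  rw [← hfv] at h3
  exact h3

end block

end Pool.Agent.Helper50.QuadA
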