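import Pool.Agent.Helper50.Quad.Defs

/-!
# Artin-Schreier covers by sums of products of two p-polynomials: definitions
-/

set_option autoImplicit false

universe u

open Pool.Agent.TH188.VT Pool.Agent.TH214.SD Pool.Agent.Helper50.Add Pool.Agent.Helper50.Quad

namespace Pool.Agent.Helper50.QuadA

section

variable {k K : Type u} [Field k] [Field K] [Algebra k K] {m n h d q s r l : ℕ}
  (E : Fin m → IntermediateField k K)

/-- The function fields `E 1, ..., E m` of surfaces over `k` are linearly disjoint, the elements
`y j ≠ 0` satisfy schön equations `G i (u, y) = 0` over the field generated by the `E i`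
(`IsSchonBase`), the elements `x 1, ..., x l` of `K` are algebraically independent over the field
generated by the `E i` and the `y j`, and the field `K` is generated over the field generated by
the `E i`, the `y j` and the `x j` by elements `w j` such that the elements `w j ^ p - w j` are
linear combinations with integral coefficients of the element `f`, which is a sum of products of
two affine `p`-polynomials in the `x j`, of functions `g i ∈ E i`, and of the elements
`F t (u, y)`, where the Laurent polynomials `F t` are jointly nondegenerate on the subscheme
given by the `G i`, strongly for the indices in `T`, and if there is an index `t` not in `T` then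
the `G i` and these `F t` involve only the variables `Y`. -/
structure IsQuadraticWildCover (p c : ℕ) (u : Fin h → K) (y : Fin n → K)
    (G : Fin q → (Fin h ⊕ Fin n → ℤ) →₀ k) (ρ : Fin d → Fin n) (g : ∀ i, E i)
    (F : Fin s → (Fin h ⊕ Fin n → ℤ) →₀ k) (T : Set (Fin s)) (x : Fin l → K) (f : K)
    (w : Fin r → K) : Prop where
  base : IsSchonBase E c u y G ρ
  nondegenerate : NondegenerateOn G F T
  untwisted : ∀ t ∉ T, (∀ i, ∀ e ∈ (G i).support, ∀ a, e (Sum.inl a) = 0) ∧
    ∀ e ∈ (F t).support, ∀ a, e (Sum.inl a) = 0
  independent : AlgebraicIndependent
    (IntermediateField.adjoin k (Set.range y ∪ ⋃ i, (E i : Set K))) x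
  quadratic : f ∈ pQuadratics p k x
  roots : ∀ j, w j ^ p - w j ∈ AddSubgroup.closure
    (insert f ((Set.range fun i => (g i : K)) ∪ Set.range fun t => value (F t) u y))
  generate : IntermediateField.adjoin k
    (Set.range w ∪ (Set.range x ∪ (Set.range y ∪ ⋃ i, (E i : Set K)))) = ⊤

end

end Pool.Agent.Helper50.QuadA
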