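import Pool.Agent.Helper50.QuadA.Indep
import Pool.Agent.Helper50.Quad.Gm

/-!
# Joint Artin-Schreier normal forms with a sum of products of two elements of a finite space
-/

set_option autoImplicit false
set_option linter.unusedVariables false
set_option linter.unusedSectionVars false

universe u

open Finsupp Module Pool.Agent.W558 Pool.Agent.W177.WD Pool.Agent.TH214 Pool.Agent.TH214.V
  Pool.Agent.Helper50.Add Pool.Agent.Helper50.Quad

namespace Pool.Agent.Helper50.QuadA

section zero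

variable {k₀ : Type*} {k K : Type u} [Field k₀] [Finite k₀] [Field k] [Field K] [Algebra k₀ k]
  [Algebra k K] [Algebra k₀ K] [IsScalarTower k₀ k K] {V : Submodule k₀ K} {I : Type}
  [Fintype I] {r : ℕ} {y : Fin r → K} {A : Subalgebra k K} {x : I → K} {Z : Fin r → I → ℤ}
  {q : ℕ} {b : Basis (Fin q) k₀ V} {n : I → ℤ} {κ : Type u} [Field κ] [Algebra k κ]
  {φ : A →ₐ[k] κ}

/-- Vectors which vanish on the `y j`. -/
lemma om_zeroA (hxA : ∀ i, x i ∈ A) (hx0 : ∀ i, x i ≠ 0)
    (hmon : ∀ j, IsMon A x (y j) (Z j))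
    (hys : ∀ v ∈ V, v ≠ 0 → ∃ i, y i = v) (Q : Fin q → Fin q → k₀)
    (hQ : ∀ i j, Q i j ≠ 0 → ∀ l l', y l = (b i : K) → y l' = (b j : K) →
      LeN A x n (Z l + Z l')) (V' : LT φ x) (hV : ∀ j, LGF V' (Z j) (y j) 0)
    (hh : (∑ i, ∑ j, Q i j • ((b i : K) * b j)) * ∏ i, x i ^ (-n i) ∈ A) : om V' n hh = 0 := by
  classical
  let X : K := ∏ i, x i ^ (-n i)
  let u : Fin q × Fin q → K := fun ij => (b ij.1 : K) * b ij.2 * X
  choose l hl using fun i => hys (b i) (b i).2 (fun h => b.ne_zero i (Subtype.ext h))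
  let S : Finset (Fin q × Fin q) := Finset.univ.filter fun ij => Q ij.1 ij.2 ≠ 0
  have hS : ∀ m ∈ S, u m ∈ A := by
    rintro ⟨i, j⟩ hm
    have hij : Q i j ≠ 0 := (Finset.mem_filter.1 hm).2
    have h1 := hQ i j hij (l i) (l j) (hl i) (hl j)
    obtain ⟨w, w0, wA, wi, hw⟩ := (hmon (l i)).mul hx0 (hmon (l j))
    change (b i : K) * b j * X ∈ A
    rw [← hl i, ← hl j, hw]
    have h2 : w * (∏ a, x a ^ (Z (l i) + Z (l j)) a) * X =
        w * ∏ a, x a ^ ((Z (l i) + Z (l j)) a - n a) := by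
      rw [mul_assoc, ← Finset.prod_mul_distrib]
      congr 1
      refine Finset.prod_congr rfl fun a _ => ?_
      rw [← zpow_add₀ (hx0 a), sub_eq_add_neg]
    rw [h2]
    refine A.mul_mem wA (A.prod_mem fun a _ => zpow_mem_of (hxA a) ((h1 a).imp_left fun h => ?_))
    omega
  have hsum : (∑ i, ∑ j, Q i j • ((b i : K) * b j)) * X =
      ∑ m ∈ S, algebraMap k₀ k (Q m.1 m.2) • u m := by
    have h1 : ∑ m ∈ S, algebraMap k₀ k (Q m.1 m.2) • u m =
        ∑ m : Fin q × Fin q, algebraMap k₀ k (Q m.1 m.2) • u m := by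
      refine Finset.sum_filter_of_ne fun m _ hm h0 => hm ?_
      rw [h0, map_zero, zero_smul]
    rw [h1, Fintype.sum_prod_type, Finset.sum_mul]
    refine Finset.sum_congr rfl fun i _ => ?_
    rw [Finset.sum_mul]
    refine Finset.sum_congr rfl fun j _ => ?_
    rw [algebraMap_smul, smul_mul_assoc]
  have hh' : ∑ m ∈ S, algebraMap k₀ k (Q m.1 m.2) • u m ∈ A := by
    rw [← hsum]
    exact hh
  have hom : om V' n hh = om V' n hh' := by
    congr 1
  rw [hom]
  have h1 : om V' n hh' = ∑ m ∈ S, algebraMap k κ (algebraMap k₀ k (Q m.1 m.2)) * 0 := by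
    refine om_smul_sum V' n S _ u hS (fun _ => 0) ?_ hh'
    rintro ⟨i, j⟩ hm
    have hij : Q i j ≠ 0 := (Finset.mem_filter.1 hm).2
    have h2 : LGF V' (Z (l i) + Z (l j)) ((b i : K) * b j) 0 := by
      have h3 := (hV (l i)).mul hx0 (hV (l j))
      rw [hl, hl, add_zero] at h3
      exact h3
    refine (om_mon hx0 hxA h2 n (hQ i j hij _ _ (hl i) (hl j)) (hS _ hm)).trans ?_
    rw [mul_zero]
  rw [h1]
  exact Finset.sum_eq_zero fun _ _ => mul_zero _

end zero

section gm

variable {r s : ℕ} {B : Type} [Fintype B] [DecidableEq B] {ι : Type}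
  {k₀ : Type*} {k K : Type u} [Field k₀] [Finite k₀] [Field k] [Field K] [Algebra k₀ k]
  [Algebra k K] [Algebra k₀ K] [IsScalarTower k₀ k K] {p : ℕ} [Fact p.Prime] [CharP k p]
  [CharP k₀ p] [CharP K p]

/-- The exponents of the unit, of the single elements and of the products. -/
def eXA (B : Type) [DecidableEq B] (r : ℕ) : Option (Fin r ⊕ Fin r × Fin r) → B ⊕ Fin r → ℤ :=
  fun o => o.elim 0 (eX B r)

lemma gm_zero {I : Type} [Fintype I] {J : Type} [Fintype J] (Z : J → I → ℤ) :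
    gm Z 0 (0 : J → ℤ) = 0 := by
  funext i
  unfold gm
  simp

/-- The joint normal form. -/
theorem gma_quad {f : ι → K} {u : B → K} {y : Fin r → K} {V : Submodule k₀ K}
    [FiniteDimensional k₀ V] (hyV : ∀ i, y i ∈ V) (hys : ∀ v ∈ V, v ≠ 0 → ∃ i, y i = v)
    (h1V : (1 : K) ∈ V) (v v' : Fin s → V)
    {σ : Type} (ε : σ ≃ Sg p (k₀ := k₀) y)
    (h : GMGA p k f (Sum.elim u y) (fun q => q.isRight = true)
      (fun e => Gs (k₀ := k₀) (k := k) p B y (ε e)) (eXA B r)) :
    GMA p k (Sum.elim f (fun _ : Unit => ∑ t, (v t : K) * v' t)) (Sum.elim u y) := by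
  classical
  have hp : p.Prime := Fact.out
  obtain ⟨T, I, hT, hI, M, n, a, hh, Z0, hN, hLn, hFn, hFr, hC, hD⟩ := h
  let Z : Fin r → I → ℤ := fun j => Z0 (Sum.inr j)
  have hx0 := M.x0
  have hxA := M.xA
  have hmon : ∀ t j, IsMon (M.A t) (M.x t) (y j) (Z j) := fun t j => hFn (Sum.inr j) t
  have hc : ∀ t i j, LeN (M.A t) (M.x t) (Z i) (Z j) ∨ LeN (M.A t) (M.x t) (Z j) (Z i) := by
    intro t i j
    have h1 := hC (some (Sum.inl i)) (some (Sum.inl j)) t
    simp only [eXA, Option.elim, eX, Sum.elim_inl, gm_single] at h1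
    exact h1
  have hc2 : ∀ t i j i' j', LeN (M.A t) (M.x t) (Z i + Z j) (Z i' + Z j') ∨
      LeN (M.A t) (M.x t) (Z i' + Z j') (Z i + Z j) := by
    intro t i j i' j'
    have h1 := hC (some (Sum.inr (i, j))) (some (Sum.inr (i', j'))) t
    simp only [eXA, Option.elim, eX, Sum.elim_inr, gm_add, gm_single] at h1
    exact h1
  have hc0 : ∀ t i j, LeN (M.A t) (M.x t) 0 (Z i + Z j) ∨
      LeN (M.A t) (M.x t) (Z i + Z j) 0 := by
    intro t i j
    have h1 := hC none (some (Sum.inr (i, j))) t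
    simp only [eXA, Option.elim, eX, Sum.elim_inr, gm_add, gm_single, gm_zero] at h1
    exact h1
  choose q b P a0 Q z0 γ hch using fun t => exists_chartA (p := p) (hxA t) (hx0 t) (hmon t)
    (hc t) (hc2 t) (hc0 t) hys h1V v v'
  -- the directions
  have hvec : ∀ t (κ : Type u) [Field κ] [Algebra k κ] (φ : M.A t →ₐ[k] κ) (i0 : Fin (q t)),
      ¬ P t i0 → ∃ (V' : LT φ (M.x t)) (α : Fin r → κ),
        (∀ l, om V' (n l) (hN.hA t l) = 0) ∧ (∀ j, LGF V' (Z j) (y j) (α j)) ∧
        (∀ l, y l = (b t i0 : K) → α l ≠ 0) ∧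
        ∀ i, i ≠ i0 → ∀ l, y l = (b t i : K) → α l = 0 := by
    intro t κ _ _ φ i0 hP0
    choose w w0 wA wi hw using fun j => hFn j t
    obtain ⟨hvl, hD2⟩ := hD t κ φ w wA w0 wi hw
    let l0 := ls φ (hxA t) Z0
    let ζ := zp φ (hxA t) wA Z0
    have hζ : ∀ j, ζ j ≠ 0 := zp_ne φ (hxA t) Z0 w0 wA wi
    have hvl' : ∀ e, vl (Gs (k₀ := k₀) (k := k) p B y e) l0 ζ = 0 := by
      intro e
      have h1 := hvl (ε.symm e)
      simp only [ε.apply_symm_apply] at h1
      exact h1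
    obtain ⟨m0, hm0⟩ := hys (b t i0) (b t i0).2
      (fun h => (b t).ne_zero i0 (Subtype.ext h))
    let c0 : Fin r → k₀ := fun j => (b t).repr ⟨y j, hyV j⟩ i0
    let L := l0 (Sum.inr m0)
    let α : Fin r → κ := fun j => if l0 (Sum.inr j) = L then
      (ζ (Sum.inr j))⁻¹ * algebraMap k κ (algebraMap k₀ k (c0 j)) else 0
    have hαe : ∀ j, α j = if l0 (Sum.inr j) = L then
      (ζ (Sum.inr j))⁻¹ * algebraMap k κ (algebraMap k₀ k (c0 j)) else 0 := fun j => rfl
    have hα : ∀ j, ζ (Sum.inr j) * α j =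
        if l0 (Sum.inr j) = L then algebraMap k κ (algebraMap k₀ k (c0 j)) else 0 := by
      intro j
      rw [hαe]
      split_ifs
      · rw [mul_inv_cancel_left₀ (hζ _)]
      · rw [mul_zero]
    have hle : ∀ j, c0 j ≠ 0 → l0 (Sum.inr j) ≤ L := by
      intro j hj
      have h1 : LeN (M.A t) (M.x t) (Z j) (Z m0) := by
        refine dvd_le (hxA t) (hx0 t) (hmon t j) (hmon t _) (hc t _ _) ?_
        rw [hm0]
        exact (hch t).ad _ _ hj
      change ∑ i ∈ _, Z0 (Sum.inr j) i ≤ ∑ i ∈ _, Z0 (Sum.inr m0) i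
      refine Finset.sum_le_sum fun i hi => ?_
      exact (h1 i).resolve_right (not_unit φ (hxA t) (hx0 t) (Finset.mem_filter.1 hi).2)
    have htan := dir_tan (B := B) (k₀ := k₀) (k := k) (g := y) l0 ζ hζ hvl' c0 (by
      intro c hc
      have h1 : ∑ i ∈ c.support, c i • (⟨y i, hyV i⟩ : V) = 0 := by
        apply Subtype.ext
        rw [linearCombination_apply, Finsupp.sum] at hc
        rw [← Submodule.subtype_apply, map_sum]
        exact hc
      have h2 := congrArg (fun w => (b t).repr w i0) h1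
      simp only [map_sum, Finsupp.finsetSum_apply, map_smul, Finsupp.smul_apply, map_zero,
        Finsupp.zero_apply, smul_eq_mul] at h2
      exact h2) (by
      intro i j hij
      refine (hch t).np _ ?_ _ hP0
      exact ⟨hyV j, y i, hyV i, hij.symm⟩) L hle α hα
    obtain ⟨V', hV1, hV2⟩ := hD2 (dirE α) (by
      rintro (j | j) hj
      · rfl
      · exact absurd rfl hj) fun e => htan _
    refine ⟨V', α, fun j => hV1 j _, fun j => hV2 (Sum.inr j), ?_, ?_⟩
    · intro l hl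
      have hlm : y l = y m0 := hl.trans hm0.symm
      have h0 : (⟨y l, hyV l⟩ : V) = b t i0 := Subtype.ext hl
      have h1 : c0 l = 1 := by
        change (b t).repr ⟨y l, hyV l⟩ i0 = 1
        rw [h0, Basis.repr_self, Finsupp.single_eq_same]
      have h2 : l0 (Sum.inr l) = L := by
        refine le_antisymm (hle l (by rw [h1]; exact one_ne_zero)) ?_
        have h3 : LeN (M.A t) (M.x t) (Z m0) (Z l) := by
          refine dvd_le (hxA t) (hx0 t) (hmon t _) (hmon t _) (hc t _ _) ?_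
          exact ⟨1, (M.A t).one_mem, by rw [one_mul, hlm]⟩
        change ∑ i ∈ _, Z0 (Sum.inr m0) i ≤ ∑ i ∈ _, Z0 (Sum.inr l) i
        refine Finset.sum_le_sum fun i hi => ?_
        exact (h3 i).resolve_right (not_unit φ (hxA t) (hx0 t) (Finset.mem_filter.1 hi).2)
      rw [hαe, if_pos h2, h1, map_one, map_one, mul_one]
      exact inv_ne_zero (hζ _)
    · intro i hi l hl
      have h0 : (⟨y l, hyV l⟩ : V) = b t i := Subtype.ext hl
      have h1 : c0 l = 0 := by
        change (b t).repr ⟨y l, hyV l⟩ i0 = 0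
        rw [h0, Basis.repr_self, Finsupp.single_eq_of_ne hi.symm]
      rw [hαe, h1, map_zero, map_zero, mul_zero, ite_self]
  -- the exponents
  let NF : I → ℤ := fun a => if h : ∃ t, (M.x t a)⁻¹ ∉ M.A t then γ h.choose a else 0
  have hind : ∀ t t' a, (M.x t a)⁻¹ ∉ M.A t → (M.x t' a)⁻¹ ∉ M.A t' → γ t' a ≤ γ t a := by
    intro t t' a ha ha'
    have := M.sm t
    exact indepA (M.snc t) (chart_int hFr p hp.one_lt t) (hxA t) (hx0 t) (hmon t) (hc2 t)
      (hxA t') (hx0 t') (hmon t') (hc2 t') (hc0 t') hys (hch t) (hch t')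
      (fun κ _ _ φ i0 hi0 => by
        obtain ⟨V', α, -, h1, h2, h3⟩ := hvec t κ φ i0 hi0
        exact ⟨V', α, h1, h2, h3⟩) ha ha'
  have hNF : ∀ t a, NF a = γ t a ∨ (M.x t a)⁻¹ ∈ M.A t := by
    intro t a
    by_cases ha : (M.x t a)⁻¹ ∈ M.A t
    · exact Or.inr ha
    · left
      have hex : ∃ t, (M.x t a)⁻¹ ∉ M.A t := ⟨t, ha⟩
      have h1 : NF a = γ hex.choose a := dif_pos hex
      rw [h1]
      exact le_antisymm (hind _ _ a ha hex.choose_spec) (hind _ _ a hex.choose_spec ha)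
  have hNF0 : ∀ a, NF a ≤ 0 := by
    intro a
    by_cases hex : ∃ t, (M.x t a)⁻¹ ∉ M.A t
    · have h1 : NF a = γ hex.choose a := dif_pos hex
      rw [h1]
      exact ((hch _).le_zero (hxA _) (hx0 _) (hmon _) (hc0 _) hys a).resolve_right
        hex.choose_spec
    · have h1 : NF a = 0 := dif_neg hex
      rw [h1]
  have hterm : ∀ t i j, Q t i j ≠ 0 → ∀ l l', y l = (b t i : K) → y l' = (b t j : K) →
      LeN (M.A t) (M.x t) NF (Z l + Z l') := by
    intro t i j hij l l' hl hl' a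
    rcases hNF t a with h1 | h1
    · rw [h1]
      exact (hch t).le_term (hxA t) (hx0 t) (hmon t) (hc2 t) (hc0 t) hys hij hl hl' a
    · exact Or.inr h1
  let g : T → K := fun t => (∑ i, ∑ j, Q t i j • ((b t i : K) * b t j)) *
    ∏ i, M.x t i ^ (-NF i)
  have hgA : ∀ t, g t ∈ M.A t := by
    intro t
    choose l hl using fun i => hys (b t i) (b t i).2
      (fun h => (b t).ne_zero i (Subtype.ext h))
    change (∑ i, ∑ j, Q t i j • ((b t i : K) * b t j)) * ∏ i, M.x t i ^ (-NF i) ∈ M.A t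
    rw [Finset.sum_mul]
    refine (M.A t).sum_mem fun i _ => ?_
    rw [Finset.sum_mul]
    refine (M.A t).sum_mem fun j _ => ?_
    by_cases hij : Q t i j = 0
    · rw [hij, zero_smul, zero_mul]
      exact (M.A t).zero_mem
    rw [← algebraMap_smul k (Q t i j), smul_mul_assoc]
    refine (M.A t).smul_mem ?_ _
    obtain ⟨w, w0, wA, wi, hw⟩ := (hmon t (l i)).mul (hx0 t) (hmon t (l j))
    rw [← hl i, ← hl j, hw]
    have h2 : w * (∏ a, M.x t a ^ (Z (l i) + Z (l j)) a) * ∏ i, M.x t i ^ (-NF i) =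
        w * ∏ a, M.x t a ^ ((Z (l i) + Z (l j)) a - NF a) := by
      rw [mul_assoc, ← Finset.prod_mul_distrib]
      congr 1
      refine Finset.prod_congr rfl fun a _ => ?_
      rw [← zpow_add₀ (hx0 t a), sub_eq_add_neg]
    rw [h2]
    refine (M.A t).mul_mem wA ((M.A t).prod_mem fun a _ => zpow_mem_of (hxA t a)
      ((hterm t i j hij _ _ (hl i) (hl j) a).imp_left fun h => ?_))
    omega
  refine ⟨T, I, hT, hI, M, Sum.elim n (fun _ => NF), fun t => Sum.elim (a t) (fun _ => a0 t),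
    fun t => Sum.elim (hh t) (fun _ => g t), Z0, ⟨?_, ?_, ?_, ?_⟩, hFn, hFr⟩
  · rintro (j | j) i
    · exact hN.n0 j i
    · exact hNF0 i
  · rintro t (j | j)
    · exact hN.hA t j
    · exact hgA t
  · rintro t (j | j)
    · exact hN.eq t j
    · change ∑ t, (v t : K) * v' t = a0 t ^ p - a0 t + (∏ i, M.x t i ^ NF i) * g t
      have h1 : (∏ i, M.x t i ^ NF i) * ∏ i, M.x t i ^ (-NF i) = 1 := by
        rw [← Finset.prod_mul_distrib]
        refine Finset.prod_eq_one fun i _ => ?_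
        rw [← zpow_add₀ (hx0 t i), add_neg_cancel, zpow_zero]
      rw [(hch t).eq, mul_left_comm, h1, mul_one]
  · rintro t κ _ _ φ (j | j) hact
    · obtain ⟨v0, h1, h2, h3⟩ := hLn t κ φ j hact
      refine ⟨v0, h1, ?_⟩
      rintro (l | l) hl
      · exact h2 l fun h => hl (by rw [h])
      · exact om_zeroA (hxA t) (hx0 t) (hmon t) hys (Q t) (hterm t) v0
          (fun j => h3 (Sum.inr j) rfl) (hgA t)
    · obtain ⟨i1, hi1, hi1'⟩ := hact
      have hi1 : NF i1 < 0 := hi1
      have hnu : (M.x t i1)⁻¹ ∉ M.A t := not_unit φ (hxA t) (hx0 t) hi1'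
      have hγ : γ t i1 < 0 := by
        rw [← (hNF t i1).resolve_right hnu]
        exact hi1
      rcases (hch t).di with ⟨-, h2⟩ | ⟨i0, u0, hP, hu0, hru, hz0, hz0A, hγe⟩
      · rw [h2] at hγ
        exact absurd hγ (lt_irrefl _)
      obtain ⟨V', α, hV1, hV2, hV3, hV4⟩ := hvec t κ φ i0 hP
      choose l hl using fun i => hys (b t i) (b t i).2
        (fun h => (b t).ne_zero i (Subtype.ext h))
      obtain ⟨-, hpv⟩ := point_vecA (n := NF) (φ := φ) (hxA t) (hx0 t) (hmon t) (hc2 t) hys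
        (Q t) u0 hru hu0 (fun i j hij => by
          obtain ⟨a, ha, h3⟩ := (hch t).dv i j hij
          exact ⟨a, ha, by rw [h3, hz0]⟩) (fun a => by
          rcases hNF t a with h3 | h3
          · left
            rw [h3, hγe]
          · exact Or.inr h3)
      refine ⟨V', ?_, ?_⟩
      · exact hpv V' l hl (fun i => α (l i)) (fun i => hV2 (l i)) (hV3 _ (hl i0))
          (fun i hi => hV4 i hi _ (hl i)) (hgA t)
      · rintro (l | l) hl
        · exact hV1 l
        · exact absurd rfl hl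

end gm

end Pool.Agent.Helper50.QuadA
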