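import Pool.Agent.Helper50.QuadA.Cut
import Pool.Graph.R_seed8.W63.R558.Nz
import Pool.Graph.R_seed8.W558.Red
import Pool.Graph.R_seed8.W558.WD.All

/-!
# The pole order of an Artin-Schreier normal form along a component of the boundary
-/

set_option autoImplicit false
set_option linter.unusedVariables false
set_option linter.unusedSectionVars false

universe u

open Pool.Agent.W558 Pool.Agent.W177.WD Pool.Agent.TH214 Pool.Agent.TH214.V
  Pool.Agent.Helper50.Quad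

namespace Pool.Agent.Helper50.QuadA

section one

variable {k K κ : Type u} [Field k] [Field K] [Algebra k K] [Field κ] [Algebra k κ]
  {O : Subalgebra k K} {φ : O →ₐ[k] κ}

lemma tv_pow (p : ℕ) [CharP κ p] (D : TV φ) (z : O) : D.D (z ^ p) = 0 := by
  have h1 : ∀ n : ℕ, D.D (z ^ (n + 1)) = ((n + 1 : ℕ) : κ) * (φ z ^ n * D.D z) := by
    intro n
    induction n with
    | zero => simp
    | succ n ih =>
      rw [pow_succ, D.leib, ih, map_pow]
      push_cast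
      ring
  rcases Nat.eq_zero_or_pos p with hp | hp
  · subst hp
    rw [pow_zero, D.D_one]
  · obtain ⟨n, rfl⟩ : ∃ n, p = n + 1 := ⟨p - 1, by omega⟩
    rw [h1, CharP.cast_eq_zero, zero_mul]

lemma tv_mul_zero (D : TV φ) {x w : O} (hx : φ x = 0) (hD : D.D x = 0) : D.D (x * w) = 0 := by
  rw [D.leib, hx, hD, zero_mul, mul_zero, add_zero]

/-- The leading coefficient of a pole which is removed by an Artin-Schreier modification is
killed by logarithmic vectors. -/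
theorem swan1 (p : ℕ) [Fact p.Prime] [CharP κ p]
    (hint : ∀ z c d : K, c ∈ O → d ∈ O → z ^ p - c * z = d → z ∈ O) {x : K} (hx : x ∈ O)
    (hx0 : x ≠ 0) (hφx : φ ⟨x, hx⟩ = 0)
    (hrad : ∀ z (hz : z ∈ O), φ ⟨z, hz⟩ = 0 → ∃ w ∈ O, z = x * w) (D : TV φ)
    (hD : D.D ⟨x, hx⟩ = 0) (e : κ) {μ : ℤ} (hμ : μ < 0) {h g δ : K} (hh : h ∈ O) (hg : g ∈ O)
    (heq : δ ^ p - δ = x ^ μ * h - x ^ (μ + 1) * g) :
    D.D ⟨h, hh⟩ + φ ⟨h, hh⟩ * ((μ : κ) * e) = 0 := by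
  have hp : p.Prime := Fact.out
  have hp2 := hp.two_le
  obtain ⟨N, hN⟩ : ∃ N : ℕ, μ = -(N : ℤ) := ⟨(-μ).toNat, by omega⟩
  have hN0 : 0 < N := by omega
  let m := (N + p - 1) / p
  have hm1 : N ≤ p * m := by
    have h1 := Nat.lt_mul_div_succ (N + p - 1) (by omega : 0 < p)
    have h2 : p * ((N + p - 1) / p + 1) = p * m + p := by rw [mul_add, mul_one]
    omega
  have hm2 : p * m ≤ N + p - 1 := Nat.mul_div_le _ _
  obtain ⟨j, hj⟩ : ∃ j, p * m = N + j := ⟨p * m - N, by omega⟩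
  have hm0 : 0 < m := by
    rcases Nat.eq_zero_or_pos m with h1 | h1
    · rw [h1, mul_zero] at hm1
      omega
    · exact h1
  have hmN : m ≤ N := by
    by_contra hcon
    have h1 : p * (N + 1) ≤ p * m := Nat.mul_le_mul_left _ (by omega)
    have h2 : 2 * N ≤ p * N := Nat.mul_le_mul_right _ hp2
    rw [mul_add, mul_one] at h1
    omega
  have hxN : x ^ N ≠ 0 := pow_ne_zero _ hx0
  have heq2 : x ^ N * (δ ^ p - δ) = h - x * g := by
    rw [heq, hN, zpow_add₀ hx0, zpow_neg, zpow_natCast, zpow_one]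
    field_simp
  let s := x ^ m * δ
  obtain ⟨m', hm'⟩ : ∃ m', (p - 1) * m = m' + 1 := by
    have h1 : 1 * 1 ≤ (p - 1) * m := Nat.mul_le_mul (by omega) hm0
    exact ⟨(p - 1) * m - 1, by omega⟩
  have hpm : p * m = m' + 1 + m := by
    obtain ⟨p', hp'⟩ : ∃ p', p = p' + 1 := ⟨p - 1, by omega⟩
    rw [hp'] at hm' ⊢
    rw [add_mul, one_mul]
    simp only [Nat.add_sub_cancel] at hm'
    rw [hm']
  have hs : s ^ p - x ^ (m' + 1) * s = x ^ j * (h - x * g) := by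
    rw [← heq2]
    change (x ^ m * δ) ^ p - x ^ (m' + 1) * (x ^ m * δ) = _
    have e1 : (x ^ m * δ) ^ p = x ^ (p * m) * δ ^ p := by
      rw [mul_pow, ← pow_mul, mul_comm m p]
    have e2 : x ^ (m' + 1) * (x ^ m * δ) = x ^ (p * m) * δ := by
      rw [hpm, pow_add x (m' + 1) m, mul_assoc]
    rw [e1, e2, hj, pow_add]
    ring
  have hsO : s ∈ O := hint s _ _ (O.pow_mem hx _)
    (O.mul_mem (O.pow_mem hx _) (O.sub_mem hh (O.mul_mem hx hg))) hs
  rcases Nat.eq_zero_or_pos j with hj0 | hj0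
  · -- the order is divisible by `p`
    subst hj0
    have hw : g - x ^ m' * s ∈ O := O.sub_mem hg (O.mul_mem (O.pow_mem hx _) hsO)
    have h1 : (⟨h, hh⟩ : O) = ⟨x, hx⟩ * ⟨_, hw⟩ + ⟨s, hsO⟩ ^ p := by
      apply Subtype.ext
      change h = x * (g - x ^ m' * s) + s ^ p
      rw [pow_zero, one_mul] at hs
      linear_combination -hs
    have h2 : (μ : κ) = 0 := by
      rw [hN, ← add_zero N, ← hj]
      push_cast
      rw [CharP.cast_eq_zero, zero_mul, neg_zero]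
    rw [h1, map_add, tv_mul_zero D hφx hD, tv_pow p D, h2]
    ring
  · -- the order is not divisible by `p`
    obtain ⟨j', rfl⟩ : ∃ j', j = j' + 1 := ⟨j - 1, by omega⟩
    have hφs : φ ⟨s, hsO⟩ = 0 := by
      have hu : h - x * g ∈ O := O.sub_mem hh (O.mul_mem hx hg)
      have h1 : (⟨s, hsO⟩ : O) ^ p = ⟨x, hx⟩ ^ (m' + 1) * ⟨s, hsO⟩ +
          ⟨x, hx⟩ ^ (j' + 1) * ⟨_, hu⟩ := by
        apply Subtype.ext
        change s ^ p = x ^ (m' + 1) * s + x ^ (j' + 1) * (h - x * g)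
        rw [← hs]
        ring
      have h2 := congrArg φ h1
      rw [map_pow, map_add, map_mul, map_mul, map_pow, map_pow, hφx, zero_pow (Nat.succ_ne_zero _),
        zero_pow (Nat.succ_ne_zero _), zero_mul, zero_mul, add_zero] at h2
      exact pow_eq_zero_iff hp.ne_zero |>.1 h2
    obtain ⟨w, hw, hsw⟩ := hrad s hsO hφs
    obtain ⟨q, hq⟩ : ∃ q, p = j' + 1 + (q + 1) := ⟨p - (j' + 2), by omega⟩
    obtain ⟨q', hq'⟩ : ∃ q', m' + 2 = j' + 1 + (q' + 1) := ⟨m' + 2 - (j' + 2), by omega⟩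
    have hw' : g + x ^ q * w ^ p - x ^ q' * w ∈ O :=
      O.sub_mem (O.add_mem hg (O.mul_mem (O.pow_mem hx _) (O.pow_mem hw _)))
        (O.mul_mem (O.pow_mem hx _) hw)
    have h1 : (⟨h, hh⟩ : O) = ⟨x, hx⟩ * ⟨_, hw'⟩ := by
      apply Subtype.ext
      change h = x * (g + x ^ q * w ^ p - x ^ q' * w)
      have h2 : x ^ (j' + 1) * (h - x * g) =
          x ^ (j' + 1) * (x ^ (q + 1) * w ^ p - x ^ (q' + 1) * w) := by
        rw [← hs, hsw, mul_pow]
        have e1 : x ^ p = x ^ (j' + 1) * x ^ (q + 1) := by rw [← pow_add, ← hq]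
        have e2 : x ^ (m' + 1) * (x * w) = x ^ (j' + 1) * (x ^ (q' + 1) * w) := by
          rw [← mul_assoc, ← pow_succ, ← mul_assoc, ← pow_add, ← hq']
        rw [e1, e2]
        ring
      have h3 := mul_left_cancel₀ (pow_ne_zero _ hx0) h2
      linear_combination h3
    rw [h1, tv_mul_zero D hφx hD, map_mul, hφx]
    ring

end one

section loc

variable {k K κ : Type u} [Field k] [Field K] [Algebra k K] [Field κ] [Algebra k κ]
  {A : Subalgebra k K}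

/-- The local ring of a point. -/
def locR (φ : A →ₐ[k] κ) : Subalgebra k K where
  carrier := {z | ∃ (s : K) (hs : s ∈ A), φ ⟨s, hs⟩ ≠ 0 ∧ s * z ∈ A}
  mul_mem' := by
    rintro a b ⟨s, hs, h1, h2⟩ ⟨t, ht, h3, h4⟩
    refine ⟨s * t, A.mul_mem hs ht, ?_, ?_⟩
    · have : (⟨s * t, A.mul_mem hs ht⟩ : A) = ⟨s, hs⟩ * ⟨t, ht⟩ := rfl
      rw [this, map_mul]
      exact mul_ne_zero h1 h3
    · have : s * t * (a * b) = (s * a) * (t * b) := by ring
      rw [this]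
      exact A.mul_mem h2 h4
  add_mem' := by
    rintro a b ⟨s, hs, h1, h2⟩ ⟨t, ht, h3, h4⟩
    refine ⟨s * t, A.mul_mem hs ht, ?_, ?_⟩
    · have : (⟨s * t, A.mul_mem hs ht⟩ : A) = ⟨s, hs⟩ * ⟨t, ht⟩ := rfl
      rw [this, map_mul]
      exact mul_ne_zero h1 h3
    · have : s * t * (a + b) = t * (s * a) + s * (t * b) := by ring
      rw [this]
      exact A.add_mem (A.mul_mem ht h2) (A.mul_mem hs h4)
  algebraMap_mem' := by
    intro r
    refine ⟨1, A.one_mem, ?_, ?_⟩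
    · have : (⟨1, A.one_mem⟩ : A) = 1 := rfl
      rw [this, map_one]
      exact one_ne_zero
    · rw [one_mul]
      exact A.algebraMap_mem r

lemma le_locR (φ : A →ₐ[k] κ) : A ≤ locR φ := by
  intro a ha
  refine ⟨1, A.one_mem, ?_, ?_⟩
  · have : (⟨1, A.one_mem⟩ : A) = 1 := rfl
    rw [this, map_one]
    exact one_ne_zero
  · rw [one_mul]
    exact ha

lemma inv_locR (φ : A →ₐ[k] κ) {s : K} (hs : s ∈ A) (h : φ ⟨s, hs⟩ ≠ 0) : s⁻¹ ∈ locR φ := by
  refine ⟨s, hs, h, ?_⟩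
  by_cases h0 : s = 0
  · rw [h0, zero_mul]
    exact A.zero_mem
  · rw [mul_inv_cancel₀ h0]
    exact A.one_mem

/-- The denominators. -/
def denR (φ : A →ₐ[k] κ) : Submonoid A where
  carrier := {s | φ s ≠ 0}
  one_mem' := by
    change φ 1 ≠ 0
    rw [map_one]
    exact one_ne_zero
  mul_mem' := by
    intro a b ha hb
    change φ (a * b) ≠ 0
    rw [map_mul]
    exact mul_ne_zero ha hb

/-- The local ring is a localization. -/
lemma isLocalization_locR (φ : A →ₐ[k] κ) :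
    letI := (Subalgebra.inclusion (le_locR φ)).toRingHom.toAlgebra
    IsLocalization (denR φ) (locR φ) := by
  let _ := (Subalgebra.inclusion (le_locR φ)).toRingHom.toAlgebra
  have hker : ∀ s : A, s ∈ (denR φ) ↔ φ s ≠ 0 := fun s => Iff.rfl
  have hne : ∀ s : A, φ s ≠ 0 → (s : K) ≠ 0 := by
    intro s hs h0
    apply hs
    have : s = 0 := Subtype.ext h0
    rw [this, map_zero]
  refine ⟨⟨?_, ?_, ?_⟩⟩
  · rintro ⟨s, hs⟩
    rw [hker] at hs
    refine IsUnit.of_mul_eq_one ⟨(s : K)⁻¹, inv_locR φ s.2 hs⟩ ?_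
    apply Subtype.ext
    change (s : K) * (s : K)⁻¹ = 1
    exact mul_inv_cancel₀ (hne s hs)
  · rintro ⟨z, s, hs, h1, h2⟩
    refine ⟨⟨⟨s * z, h2⟩, ⟨⟨s, hs⟩, h1⟩⟩, ?_⟩
    apply Subtype.ext
    change z * s = s * z
    exact mul_comm _ _
  · intro a b hab
    refine ⟨1, ?_⟩
    have h1 : (a : K) = b := congrArg (Subtype.val : locR φ → K) hab
    rw [Subtype.ext h1]

/-- Extension of points and tangent vectors to the local ring. -/
theorem locR_ext (φ : A →ₐ[k] κ) (D : TV φ) : ∃ (ψ : locR φ →ₐ[k] κ) (E : TV ψ),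
    (∀ a (ha : a ∈ A) (ha' : a ∈ locR φ), ψ ⟨a, ha'⟩ = φ ⟨a, ha⟩) ∧
    ∀ a (ha : a ∈ A) (ha' : a ∈ locR φ), E.D ⟨a, ha'⟩ = D.D ⟨a, ha⟩ := by
  let _ : Algebra A (locR φ) := (Subalgebra.inclusion (le_locR φ)).toRingHom.toAlgebra
  have : IsScalarTower k A (locR φ) := IsScalarTower.of_algebraMap_eq fun r => rfl
  have hloc : IsLocalization (denR φ) (locR φ) := isLocalization_locR φ
  have hu : ∀ s : (denR φ), IsUnit (D.dual.toRingHom s) := by
    rintro ⟨s, hs⟩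
    have hs' : φ s ≠ 0 := hs
    have : D.dual.toRingHom s = D.dual s := rfl
    rw [this, TrivSqZeroExt.isUnit_iff_isUnit_fst, TV.dual_fst, isUnit_iff_ne_zero]
    exact hs'
  let ψ0 : locR φ →+* TrivSqZeroExt κ κ := IsLocalization.lift hu
  have hψ : ∀ a : A, ψ0 (algebraMap A (locR φ) a) = D.dual a := fun a =>
    IsLocalization.lift_eq hu a
  let ψ' : locR φ →ₐ[k] TrivSqZeroExt κ κ :=
    { ψ0 with
      commutes' := by
        intro r
        change ψ0 (algebraMap k _ r) = _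
        rw [IsScalarTower.algebraMap_apply k A (locR φ), hψ]
        exact D.dual.commutes r }
  let ψ : locR φ →ₐ[k] κ := (TrivSqZeroExt.fstHom k κ κ).comp ψ'
  refine ⟨ψ, TV.ofDual ψ ψ' fun a => rfl, ?_, ?_⟩
  · intro a ha ha'
    change (ψ0 (algebraMap A _ ⟨a, ha⟩)).fst = _
    rw [hψ, TV.dual_fst]
  · intro a ha ha'
    change (ψ0 (algebraMap A _ ⟨a, ha⟩)).snd = _
    rw [hψ, TV.dual_snd]

/-- The pole order along a component of the boundary: if `f = δ ^ p - δ + x ^ n * h` and the pole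
of the difference of `f` is smaller then the logarithmic differential of `x ^ n * h` vanishes at
the generic point of the component. -/
theorem swan (p : ℕ) [Fact p.Prime] [CharP κ p]
    (hint : ∀ z c d : K, c ∈ A → d ∈ A → z ^ p - c * z = d → z ∈ A) {I : Type} [Fintype I]
    {x : I → K} (hxA : ∀ i, x i ∈ A) (hx0 : ∀ i, x i ≠ 0) {φ : A →ₐ[k] κ} {a : I}
    (hφa : φ ⟨x a, hxA a⟩ = 0) (hφi : ∀ i, i ≠ a → φ ⟨x i, hxA i⟩ ≠ 0)
    (hmin : ∀ z (hz : z ∈ A), φ ⟨z, hz⟩ = 0 → ∃ (s : K) (hs : s ∈ A), φ ⟨s, hs⟩ ≠ 0 ∧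
      ∃ w ∈ A, s * z = x a * w) (v : LT φ x) {n : I → ℤ} (hn : n a < 0) {h g δ : K}
    (hh : h ∈ A) (hg : g ∈ locR φ)
    (heq : δ ^ p - δ = (∏ i, x i ^ n i) * h - x a ^ (n a + 1) * g) :
    om v n hh = 0 := by
  classical
  have hp : p.Prime := Fact.out
  obtain ⟨ψ, E, hψ, hE⟩ := locR_ext φ v.D
  have hle := le_locR φ
  have hxi : ∀ i, i ≠ a → (x i)⁻¹ ∈ locR φ := fun i hi => inv_locR φ (hxA i) (hφi i hi)
  let P : K := ∏ i ∈ Finset.univ.erase a, x i ^ n i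
  have hLG : LG E P (∑ i ∈ Finset.univ.erase a, (n i : κ) * v.e i) := by
    refine LG.prod _ _ _ fun i hi => ?_
    refine LG.zpow ⟨hle (hxA i), ?_⟩ (hx0 i) _ (Or.inr (hxi i (Finset.ne_of_mem_erase hi)))
    rw [hE _ (hxA i), hψ _ (hxA i)]
    exact v.hx i (hxA i)
  have hPm : P ∈ locR φ := hLG.mem
  have hP0 : P ≠ 0 := Finset.prod_ne_zero_iff.2 fun i _ => zpow_ne_zero _ (hx0 i)
  have hPi : P⁻¹ ∈ locR φ := by
    rw [← Finset.prod_inv_distrib]
    refine (locR φ).prod_mem fun i hi => ?_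
    rw [← zpow_neg]
    exact zpow_mem_of (hle (hxA i)) (Or.inr (hxi i (Finset.ne_of_mem_erase hi)))
  have hψP : ψ ⟨P, hPm⟩ ≠ 0 := by
    intro h0
    have h1 : ψ ⟨P, hPm⟩ * ψ ⟨P⁻¹, hPi⟩ = 1 := by
      rw [← map_mul, ← map_one ψ]
      congr 1
      exact Subtype.ext (mul_inv_cancel₀ hP0)
    rw [h0, zero_mul] at h1
    exact zero_ne_one h1
  have hprod : ∏ i, x i ^ n i = x a ^ n a * P :=
    (Finset.mul_prod_erase Finset.univ (fun i => x i ^ n i) (Finset.mem_univ a)).symm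
  have hint' : ∀ z c d : K, c ∈ locR φ → d ∈ locR φ → z ^ p - c * z = d → z ∈ locR φ := by
    rintro z c d ⟨s, hs, hs1, hs2⟩ ⟨t, ht, ht1, ht2⟩ hz
    refine ⟨s * t, A.mul_mem hs ht, ?_, ?_⟩
    · have : (⟨s * t, A.mul_mem hs ht⟩ : A) = ⟨s, hs⟩ * ⟨t, ht⟩ := rfl
      rw [this, map_mul]
      exact mul_ne_zero hs1 ht1
    · obtain ⟨q, hq⟩ : ∃ q, p = q + 2 := ⟨p - 2, by have := hp.two_le; omega⟩
      refine hint (s * t * z) ((s * t) ^ q * t * (s * c)) ((s * t) ^ (q + 1) * s * (t * d)) ?_ ?_ ?_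
      · exact A.mul_mem (A.mul_mem (A.pow_mem (A.mul_mem hs ht) _) ht) hs2
      · exact A.mul_mem (A.mul_mem (A.pow_mem (A.mul_mem hs ht) _) hs) ht2
      · rw [← hz, hq]
        ring
  have hrad : ∀ z (hz : z ∈ locR φ), ψ ⟨z, hz⟩ = 0 → ∃ w ∈ locR φ, z = x a * w := by
    intro z hz h0
    obtain ⟨s, hs, hs1, hs2⟩ := id hz
    have h1 : φ ⟨s * z, hs2⟩ = 0 := by
      rw [← hψ _ hs2 (hle hs2)]
      have : (⟨s * z, hle hs2⟩ : locR φ) = ⟨s, hle hs⟩ * ⟨z, hz⟩ := rfl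
      rw [this, map_mul, h0, mul_zero]
    obtain ⟨t, ht, ht1, w, hw, htw⟩ := hmin _ hs2 h1
    have hs0 : s ≠ 0 := by
      rintro rfl
      exact hs1 (map_zero φ)
    have ht0 : t ≠ 0 := by
      rintro rfl
      exact ht1 (map_zero φ)
    refine ⟨w * (t⁻¹ * s⁻¹), (locR φ).mul_mem (hle hw)
      ((locR φ).mul_mem (inv_locR φ ht ht1) (inv_locR φ hs hs1)), ?_⟩
    have h2 : t * s * z = x a * w := by rw [← htw]; ring
    have h3 : z = t⁻¹ * s⁻¹ * (t * s * z) := by field_simp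
    rw [h3, h2]
    ring
  have hD : E.D ⟨x a, hle (hxA a)⟩ = 0 := by
    rw [hE _ (hxA a), v.hx a (hxA a), hφa, zero_mul]
  have h1 := swan1 p hint' (hle (hxA a)) (hx0 a) (by rw [hψ _ (hxA a)]; exact hφa) hrad E hD
    (v.e a) hn ((locR φ).mul_mem hPm (hle hh)) hg (by rw [heq, hprod]; ring)
  have h2 : E.D ⟨P * h, (locR φ).mul_mem hPm (hle hh)⟩ = ψ ⟨P, hPm⟩ * v.D.D ⟨h, hh⟩ +
      φ ⟨h, hh⟩ * (ψ ⟨P, hPm⟩ * ∑ i ∈ Finset.univ.erase a, (n i : κ) * v.e i) := by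
    have h3 := E.leib ⟨P, hPm⟩ ⟨h, hle hh⟩
    rw [hE _ hh, hψ _ hh, hLG.eq hPm] at h3
    exact h3
  have h3 : ψ ⟨P * h, (locR φ).mul_mem hPm (hle hh)⟩ = ψ ⟨P, hPm⟩ * φ ⟨h, hh⟩ := by
    have : (⟨P * h, (locR φ).mul_mem hPm (hle hh)⟩ : locR φ) = ⟨P, hPm⟩ * ⟨h, hle hh⟩ := rfl
    rw [this, map_mul, hψ _ hh]
  rw [h2, h3] at h1
  have h4 : ψ ⟨P, hPm⟩ * om v n hh = 0 := by
    rw [← h1]
    unfold om
    rw [← Finset.add_sum_erase Finset.univ (fun i => (n i : κ) * v.e i) (Finset.mem_univ a)]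
    ring
  exact (mul_eq_zero.1 h4).resolve_left hψP

end loc

section pt

variable {k K : Type u} [Field k] [Field K] [Algebra k K] {A : Subalgebra k K}

/-- The generic point of a component of the boundary. -/
theorem exists_gen [Algebra.Smooth k A] {I : Type} {x : I → K} (hS : SNC A x)
    (hxA : ∀ i, x i ∈ A) (hx0 : ∀ i, x i ≠ 0) {a : I} (ha : (x a)⁻¹ ∉ A) :
    ∃ (κ : Type u) (_ : Field κ) (_ : Algebra k κ) (φ : A →ₐ[k] κ),
      φ ⟨x a, hxA a⟩ = 0 ∧ (∀ i, i ≠ a → φ ⟨x i, hxA i⟩ ≠ 0) ∧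
      ∀ z (hz : z ∈ A), φ ⟨z, hz⟩ = 0 → ∃ (s : K) (hs : s ∈ A), φ ⟨s, hs⟩ ≠ 0 ∧
        ∃ w ∈ A, s * z = x a * w := by
  set y' : A := ⟨x a, hxA a⟩ with hy'
  have hyTV : ∀ (κ : Type u) [Field κ] [Algebra k κ] (φ : A →ₐ[k] κ), φ y' = 0 →
      ∃ D : TV φ, D.D y' ≠ 0 := by
    intro κ _ _ φ hφ
    obtain ⟨D, hD, -⟩ := hS κ φ a (hxA a) hφ
    refine ⟨D, ?_⟩
    rw [hD]
    exact one_ne_zero
  have hsmq := smooth_quot y' hyTV
  have hred := isReduced_of_smooth k (A ⧸ Ideal.span {y'})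
  have hrad : (Ideal.span {y'}).IsRadical := (Ideal.isRadical_iff_quotient_reduced _).2 hred
  have hne : Ideal.span {y'} ≠ ⊤ := by
    intro h1
    rw [Ideal.span_singleton_eq_top] at h1
    obtain ⟨w, hw⟩ := h1.exists_right_inv
    apply ha
    have h2 : x a * (w : K) = 1 := congrArg Subtype.val hw
    rw [inv_eq_of_mul_eq_one_right h2]
    exact w.2
  obtain ⟨q, hq⟩ := Ideal.nonempty_minimalPrimes hne
  have hqp : q.IsPrime := hq.1.1
  have hIq : Ideal.span {y'} ≤ q := hq.1.2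
  have hyq : y' ∈ q := hIq (Ideal.mem_span_singleton_self y')
  obtain ⟨κ, iκ, iκ', φ, hφ0⟩ := Pool.Agent.W63.R558Nz.exists_pt (k := k) q
  have hφy : φ y' = 0 := (hφ0 _).2 hyq
  refine ⟨κ, iκ, iκ', φ, hφy, ?_, ?_⟩
  · intro i hi hφi
    obtain ⟨s, hs, hsx⟩ := Pool.Agent.W63.R558Nz.exists_mul_mem_of_minimal hrad hq
      ((hφ0 _).1 hφi)
    obtain ⟨r, hr⟩ := Ideal.mem_span_singleton.1 hsx
    obtain ⟨D, hD1, hD2⟩ := hS κ φ i (hxA i) hφi
    have hDy : D.D y' = 0 := hD2 a (hxA a) (Ne.symm hi) hφy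
    have h1 := congrArg D.D hr
    rw [D.leib, D.leib, hD1, hDy, hφy, hφi] at h1
    apply hs
    rw [← hφ0]
    simpa using h1
  · intro z hz hφz
    obtain ⟨s, hs, hsz⟩ := Pool.Agent.W63.R558Nz.exists_mul_mem_of_minimal hrad hq
      ((hφ0 _).1 hφz)
    obtain ⟨w, hw⟩ := Ideal.mem_span_singleton.1 hsz
    exact ⟨s, s.2, fun h => hs ((hφ0 _).1 h), w, w.2, congrArg Subtype.val hw⟩

/-- Charts of models are integrally closed. -/
theorem chart_int {T I : Type} {M : LM (⊥ : Subalgebra k K) ⊤ T I} (hF : Frc M) (p : ℕ)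
    (hp : 1 < p) (t : T) : ∀ z c d : K, c ∈ M.A t → d ∈ M.A t → z ^ p - c * z = d → z ∈ M.A t := by
  intro z c d hc hd hz
  have := M.sm t
  have hn : IsIntegrallyClosed (M.A t) := wd_norm k (M.A t)
  have hfr : IsFractionRing (M.A t) K := by
    refine IsFractionRing.of_field _ _ fun x => ?_
    obtain ⟨a, ha, b, hb, hb0, h1⟩ := hF t x
    refine ⟨⟨a, ha⟩, ⟨b, hb⟩, ?_⟩
    rw [h1]
    exact (div_eq_mul_inv _ _).symm
  have hint : IsIntegral (M.A t) z := by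
    refine ⟨Polynomial.X ^ p - (Polynomial.C (⟨c, hc⟩ : M.A t) * Polynomial.X +
      Polynomial.C ⟨d, hd⟩), Polynomial.monic_X_pow_sub ?_, ?_⟩
    · refine (Polynomial.degree_linear_le).trans_lt ?_
      exact_mod_cast hp
    · rw [Polynomial.eval₂_sub, Polynomial.eval₂_add, Polynomial.eval₂_mul, Polynomial.eval₂_pow,
        Polynomial.eval₂_X, Polynomial.eval₂_C, Polynomial.eval₂_C]
      change z ^ p - (c * z + d) = 0
      rw [← hz]
      ring
  obtain ⟨w, hw⟩ := IsIntegrallyClosed.isIntegral_iff.1 hint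
  rw [← hw]
  exact w.2

end pt

end Pool.Agent.Helper50.QuadA
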