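import Pool.Agent.Helper50.QuadA.Norm
import Pool.Agent.Helper50.QuadA.Swan

/-!
# The exponents of the normal form are independent of the chart
-/

set_option autoImplicit false
set_option linter.unusedVariables false
set_option linter.unusedSectionVars false

universe u

open Finsupp Module Pool.Agent.W558 Pool.Agent.W177.WD Pool.Agent.TH214 Pool.Agent.TH214.V
  Pool.Agent.Helper50.Add Pool.Agent.Helper50.Quad

namespace Pool.Agent.Helper50.QuadA

section indep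

variable {p : ℕ} [Fact p.Prime] {k₀ : Type*} {k K : Type u} [Field k₀] [Finite k₀] [CharP k₀ p]
  [Field k] [CharP k p] [Field K] [CharP K p] [Algebra k₀ k]
  [Algebra k K] [Algebra k₀ K] [IsScalarTower k₀ k K] {V : Submodule k₀ K} {I : Type}
  [Fintype I] {r s : ℕ} {y : Fin r → K} {Z : Fin r → I → ℤ}
  {A A' : Subalgebra k K} {x x' : I → K}
  {f : K} {q q' : ℕ} {b : Basis (Fin q) k₀ V} {P : Fin q → Prop} {a0 z0 : K}
  {Q : Fin q → Fin q → k₀} {γ : I → ℤ} {b' : Basis (Fin q') k₀ V} {P' : Fin q' → Prop}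
  {a0' z0' : K} {Q' : Fin q' → Fin q' → k₀} {γ' : I → ℤ}

/-- The exponents are independent of the chart. -/
theorem indepA [Algebra.Smooth k A] (hS : SNC A x)
    (hint : ∀ z c d : K, c ∈ A → d ∈ A → z ^ p - c * z = d → z ∈ A)
    (hxA : ∀ i, x i ∈ A) (hx0 : ∀ i, x i ≠ 0) (hmon : ∀ j, IsMon A x (y j) (Z j))
    (hc2 : ∀ i j i' j', LeN A x (Z i + Z j) (Z i' + Z j') ∨ LeN A x (Z i' + Z j') (Z i + Z j))
    (hxA' : ∀ i, x' i ∈ A') (hx0' : ∀ i, x' i ≠ 0)
    (hmon' : ∀ j, IsMon A' x' (y j) (Z j))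
    (hc2' : ∀ i j i' j', LeN A' x' (Z i + Z j) (Z i' + Z j') ∨
      LeN A' x' (Z i' + Z j') (Z i + Z j))
    (hc0' : ∀ i j, LeN A' x' 0 (Z i + Z j) ∨ LeN A' x' (Z i + Z j) 0)
    (hys : ∀ v ∈ V, v ≠ 0 → ∃ i, y i = v) (h : ChartA p A V y Z f b P a0 Q z0 γ)
    (h' : ChartA p A' V y Z f b' P' a0' Q' z0' γ')
    (hvec : ∀ (κ : Type u) [Field κ] [Algebra k κ] (φ : A →ₐ[k] κ) (i0 : Fin q), ¬ P i0 →
      ∃ (V' : LT φ x) (α : Fin r → κ), (∀ j, LGF V' (Z j) (y j) (α j)) ∧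
        (∀ l, y l = (b i0 : K) → α l ≠ 0) ∧ ∀ i, i ≠ i0 → ∀ l, y l = (b i : K) → α l = 0)
    {a : I} (ha : (x a)⁻¹ ∉ A) (ha' : (x' a)⁻¹ ∉ A') : γ' a ≤ γ a := by
  classical
  by_contra hcon
  push Not at hcon
  have h1 : γ' a ≤ 0 := ((h'.le_zero hxA' hx0' hmon' hc0' hys) a).resolve_right ha'
  have hneg : γ a < 0 := hcon.trans_le h1
  rcases h.di with ⟨-, h2⟩ | ⟨i0, u0, hP, hu0, hru, hz0, hz0A, hγ⟩
  · rw [h2] at hneg
    exact absurd hneg (lt_irrefl _)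
  obtain ⟨κ, iκ, iκ', φ, hφa, hφi, hmin⟩ := exists_gen hS hxA hx0 ha
  have hcκ : CharP κ p := charP_of_injective_algebraMap (algebraMap k κ).injective p
  obtain ⟨V', α, hα, hα0, hα1⟩ := hvec κ φ i0 hP
  choose l hl using fun i => hys (b i) (b i).2 (fun h => b.ne_zero i (Subtype.ext h))
  obtain ⟨hh, hpv⟩ := point_vecA (n := γ) (φ := φ) hxA hx0 hmon hc2 hys Q u0 hru hu0
    (fun i j hij => by
      obtain ⟨a, ha, h3⟩ := h.dv i j hij
      exact ⟨a, ha, by rw [h3, hz0]⟩) (fun a => Or.inl (by rw [hγ]))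
  refine hpv V' l hl (fun i => α (l i)) (fun i => hα (l i)) (hα0 _ (hl i0))
    (fun i hi => hα1 i hi _ (hl i)) hh ?_
  -- the pole
  have hxa0 : x a ^ (γ a + 1) ≠ 0 := zpow_ne_zero _ (hx0 a)
  have hprod : (∏ i, x i ^ γ i) * ∏ i, x i ^ (-γ i) = 1 := by
    rw [← Finset.prod_mul_distrib]
    refine Finset.prod_eq_one fun i _ => ?_
    rw [← zpow_add₀ (hx0 i), add_neg_cancel, zpow_zero]
  have hle := le_locR φ
  have hg : (∑ i, ∑ j, Q' i j • ((b' i : K) * b' j)) * (x a ^ (γ a + 1))⁻¹ ∈ locR φ := by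
    rw [Finset.sum_mul]
    refine (locR φ).sum_mem fun i _ => ?_
    rw [Finset.sum_mul]
    refine (locR φ).sum_mem fun j _ => ?_
    by_cases hij : Q' i j = 0
    · rw [hij, zero_smul, zero_mul]
      exact (locR φ).zero_mem
    rw [← algebraMap_smul k (Q' i j), smul_mul_assoc]
    refine (locR φ).smul_mem ?_ _
    obtain ⟨m, hm⟩ := hys (b' i) (b' i).2 (fun h => b'.ne_zero i (Subtype.ext h))
    obtain ⟨m', hm'⟩ := hys (b' j) (b' j).2 (fun h => b'.ne_zero j (Subtype.ext h))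
    have h3 : γ' a ≤ (Z m + Z m') a :=
      ((h'.le_term hxA' hx0' hmon' hc2' hc0' hys hij hm hm') a).resolve_right ha'
    obtain ⟨w, w0, wA, wi, hw⟩ := (hmon m).mul hx0 (hmon m')
    rw [← hm, ← hm', hw]
    have h4 : w * (∏ i, x i ^ (Z m + Z m') i) * (x a ^ (γ a + 1))⁻¹ =
        w * (x a ^ ((Z m + Z m') a - (γ a + 1)) *
          ∏ i ∈ Finset.univ.erase a, x i ^ (Z m + Z m') i) := by
      rw [← Finset.mul_prod_erase Finset.univ (fun i => x i ^ (Z m + Z m') i)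
        (Finset.mem_univ a), zpow_sub₀ (hx0 a), div_eq_mul_inv]
      ring
    rw [h4]
    refine (locR φ).mul_mem (hle wA) ((locR φ).mul_mem ?_ ((locR φ).prod_mem fun i hi => ?_))
    · exact zpow_mem_of (hle (hxA a)) (Or.inl (by omega))
    · exact zpow_mem_of (hle (hxA i))
        (Or.inr (inv_locR φ (hxA i) (hφi i (Finset.ne_of_mem_erase hi))))
  refine swan p hint hxA hx0 hφa hφi hmin V' hneg (δ := a0' - a0) hh hg ?_
  have h3 := h.eq
  have h4 := h'.eq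
  rw [mul_left_comm, hprod, mul_one, mul_left_comm, mul_inv_cancel₀ hxa0, mul_one,
    sub_pow_char]
  rw [h3] at h4
  linear_combination -h4

end indep

end Pool.Agent.Helper50.QuadA
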