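import Pool.Agent.Helper50.QuadA.Base
import Pool.Agent.Helper50.QuadA.Defs
import Pool.Agent.Helper50.Quad.Main

/-!
# Models of the Artin-Schreier covers
-/

set_option autoImplicit false
set_option linter.unusedVariables false
set_option linter.unusedSectionVars false

universe u

open Finsupp Module Pool.Agent.W558 Pool.Agent.TH214 Pool.Agent.TH214.V Pool.Agent.TH214.SD
  Pool.Agent.Helper50.Add Pool.Agent.TH188.WP Pool.Agent.TH188.WQ Pool.Agent.TH188.VT
  Pool.Agent.TH188.VQ Pool.Agent.W558.WT AlgebraicGeometry CategoryTheory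
  Pool.Agent.Helper50.Quad

namespace Pool.Agent.Helper50.QuadA

section main

variable {p : ℕ} [Fact p.Prime] {k K : Type u} [Field k] [PerfectField k] [CharP k p] [Field K]
  [Algebra k K] {m n h d c q s l r : ℕ} {E : Fin m → IntermediateField k K} {x : Fin l → K}
  {u : Fin h → K} {y : Fin n → K} {G : Fin q → (Fin h ⊕ Fin n → ℤ) →₀ k} {ρ : Fin d → Fin n}

/-- Models of the Artin-Schreier extensions over the field generated by the `x i`. -/
theorem as_final [CharP K p] {K0 : Type u} [Field K0] [Algebra k K0] [Algebra K0 K]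
    [IsScalarTower k K0 K] {d1 : ℕ} (hd1 : Algebra.trdeg k K0 = d1) {ι B S : Type} [Fintype ι]
    [Fintype B] [Finite S] {F0 : ι → K0} {g0 : B → K0} (hGM0 : GMA p k F0 g0)
    (hind : AlgebraicIndependent K0 x) {f : K} (hf : f ∈ pQuadratics p k x) (bS : S → K)
    (hbS : ∀ b, IsPolynomialProduct p k x (bS b)) (w : Fin r → K) (lam : Fin r → ι → ZMod p)
    (nu : Fin r → ZMod p)
    (hw : ∀ j, w j ^ p - w j =
      ∑ q, zc p K (lam j q) * algebraMap K0 K (F0 q) + zc p K (nu j) * f)
    (hgen : IntermediateField.adjoin K0 (Set.range w ∪ Set.range x) = ⊤) :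
    ∃ (T I : Type) (_ : Finite T) (_ : Fintype I) (M : LM (⊥ : Subalgebra k K) ⊤ T I)
      (Γ : B ⊕ S → I → ℤ), Fn M (Sum.elim (fun b => algebraMap K0 K (g0 b)) bS) Γ ∧ Frc M := by
  classical
  have hp : p.Prime := Fact.out
  let K1 : IntermediateField K0 K := IntermediateField.adjoin K0 (Set.range x)
  have tL : IsScalarTower k K0 K1 := by
    refine IsScalarTower.of_algebraMap_eq fun c => Subtype.ext ?_
    exact IsScalarTower.algebraMap_apply k K0 K c
  have tK : IsScalarTower k K1 K := IsScalarTower.of_algebraMap_eq fun c => rfl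
  have hcK1 : CharP K1 p := charP_of_injective_algebraMap (algebraMap k K1).injective p
  let x' : Fin l → K1 := fun j => ⟨x j, IntermediateField.subset_adjoin _ _ ⟨j, rfl⟩⟩
  let φ : K1 →ₐ[k] K := K1.val.restrictScalars k
  have hgen1 : IntermediateField.adjoin K0 (Set.range x') = ⊤ := by
    apply IntermediateField.lift_injective K1
    rw [IntermediateField.lift_adjoin, IntermediateField.lift_top, ← Set.range_comp]
    rfl
  have hind' : AlgebraicIndependent K0 x' :=
    (K1.val.algebraicIndependent_iff K1.val.injective).1 hind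
  obtain ⟨f', hf', hff⟩ := pQuad_sub φ x' (fun _ => rfl) hf
  choose bS' hbS' hbb using fun i => pProd_sub φ x' (fun _ => rfl) (hbS i)
  have hGM := gma_block hd1 hind' hgen1 hGM0 hf' bS' hbS'
  have hGT := gmt_init wt_pack hGM
  have htop : IntermediateField.adjoin K1 (Set.range w) = ⊤ := by
    rw [eq_top_iff]
    intro z _
    have h1 : z ∈ IntermediateField.adjoin K0 (Set.range w ∪ Set.range x) := by
      rw [hgen]
      trivial
    have h2 : IntermediateField.adjoin K0 (Set.range w ∪ Set.range x) ≤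
        (IntermediateField.adjoin K1 (Set.range w)).restrictScalars K0 := by
      rw [IntermediateField.adjoin_le_iff]
      rintro z (hz | hz)
      · exact IntermediateField.subset_adjoin K1 _ hz
      · exact (IntermediateField.adjoin K1 (Set.range w)).algebraMap_mem
          ⟨z, IntermediateField.subset_adjoin K0 _ hz⟩
    exact h2 h1
  obtain ⟨T', I', hT', hI', M', n', a', h', Λ', R', Γ', -, hFn, hR'⟩ :=
    gmt_tower wt_pack p k r K1 K _ _ hGT w (fun j => Sum.elim (lam j) (fun _ => nu j)) (by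
      intro j
      rw [hw j, Fintype.sum_sum_type]
      congr 1
      rw [Fintype.sum_unique]
      exact congrArg _ hff.symm) htop
  refine ⟨T', I', hT', hI', M', Γ', ?_, hR'⟩
  have h1 : (fun b => algebraMap K1 K (Sum.elim (fun b => algebraMap K0 K1 (g0 b)) bS' b)) =
      Sum.elim (fun b => algebraMap K0 K (g0 b)) bS := by
    funext b
    rcases b with b | b
    · exact (IsScalarTower.algebraMap_apply K0 K1 K (g0 b)).symm
    · exact hbb b
  rw [h1] at hFn
  exact hFn

/-- Models of the covers. -/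
theorem quad_as_models {g : ∀ i, E i} {F : Fin s → (Fin h ⊕ Fin n → ℤ) →₀ k} {T : Set (Fin s)}
    {f : K} {w : Fin r → K} (hK : IsQuadraticWildCover E p c u y G ρ g F T x f w) (S : Type)
    [Finite S] (v : S → K) (hv : ∀ b, IsProductOver E p x y (v b)) :
    ∃ (T I : Type) (_ : Finite T) (_ : Fintype I) (M : LM (⊥ : Subalgebra k K) ⊤ T I)
      (Γ : S → I → ℤ), Fn M v Γ ∧ Frc M := by
  classical
  have hp : p.Prime := Fact.out
  obtain ⟨hB, hnd, hunt, hind, hfq, hroots, hgen⟩ := hK
  have hE := hB.surfaces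
  have hfS : Fintype S := Fintype.ofFinite S
  have hcK : CharP K p := charP_of_injective_algebraMap (algebraMap k K).injective p
  have htr : Algebra.trdeg k K < Cardinal.aleph0 :=
    trdeg_fin hE (X := Set.range w ∪ (Set.range x ∪ Set.range y))
      ((Set.finite_range w).union ((Set.finite_range x).union (Set.finite_range y))) (by
        rw [Set.union_assoc, Set.union_assoc]
        exact hgen)
  choose s' bS ex hs hbS hvb using hv
  choose hu0 uu huu using hB.products
  have huu0 : ∀ a i, uu a i ≠ 0 := by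
    intro a i h0
    apply hu0 a
    rw [huu a]
    exact Finset.prod_eq_zero (Finset.mem_univ i) (by rw [h0]; rfl)
  have hND := ndv_of (G := G) (F := F) (tw := fun t => t ∈ T) (c := c) fun l z hz hv =>
    ⟨hB.schon l z hz hv, fun t ht => hnd l z hz hv t ht⟩
  have hun : ∀ t, ¬ (t ∈ T) → (∀ i, ∀ e ∈ (G i).support, ∀ j : Fin h ⊕ Fin n,
      ¬ j.isRight = true → e j = 0) ∧ ∀ e ∈ (F t).support, ∀ j : Fin h ⊕ Fin n,
        ¬ j.isRight = true → e j = 0 := by
    intro t ht
    refine ⟨?_, ?_⟩
    · rintro i e he (j | j) hj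
      · exact (hunt t ht).1 i e he j
      · exact absurd rfl hj
    · rintro e he (j | j) hj
      · exact (hunt t ht).2 e he j
      · exact absurd rfl hj
  -- the coefficients
  obtain ⟨lam, mu, hlm⟩ := exists_coeff p K w (fun i => (g i : K))
    (Sum.elim (fun t => value (F t) u y) (fun _ : Unit => f)) (by
      intro j
      refine AddSubgroup.closure_mono ?_ (hroots j)
      rintro z (rfl | ⟨i, rfl⟩ | ⟨t, rfl⟩)
      · exact Or.inr ⟨Sum.inr (), rfl⟩
      · exact Or.inl ⟨i, rfl⟩
      · exact Or.inr ⟨Sum.inl t, rfl⟩)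
  obtain ⟨K0, _, _, _, _, d1, f0, Fτ, g1, y1, hd1, hind', hEr, hg1, hy1, hFτ, hf0, hGM0⟩ :=
    sch_gma' (p := p) hE htr g uu huu0 u huu y hB.ne_zero ρ hB.codimension hB.independent
      (Fin q) (Fin s) G F (fun t => t ∈ T) hB.equations hND hun S s' hs hind
  have hgen' : IntermediateField.adjoin K0 (Set.range w ∪ Set.range x) = ⊤ := by
    rw [eq_top_iff]
    intro z _
    have h1 : z ∈ IntermediateField.adjoin k
        (Set.range w ∪ (Set.range x ∪ (Set.range y ∪ ⋃ i, (E i : Set K)))) := by
      rw [hgen]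
      trivial
    let N0 : IntermediateField K0 K := IntermediateField.adjoin K0 (Set.range w ∪ Set.range x)
    have h2 : IntermediateField.adjoin k
        (Set.range w ∪ (Set.range x ∪ (Set.range y ∪ ⋃ i, (E i : Set K)))) ≤
        N0.restrictScalars k := by
      rw [IntermediateField.adjoin_le_iff]
      rintro z (hz | hz | ⟨j, rfl⟩ | hz)
      · have h4 : z ∈ N0 := IntermediateField.subset_adjoin K0 _ (Set.mem_union_left _ hz)
        exact h4
      · have h4 : z ∈ N0 := IntermediateField.subset_adjoin K0 _ (Set.mem_union_right _ hz)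
        exact h4
      · have h4 : y j ∈ N0 := by
          rw [← hy1 j]
          exact N0.algebraMap_mem (y1 j)
        exact h4
      · obtain ⟨i, hi⟩ := Set.mem_iUnion.1 hz
        obtain ⟨z', rfl⟩ := hEr i z hi
        have h4 : algebraMap K0 K z' ∈ N0 := N0.algebraMap_mem z'
        exact h4
    exact h2 h1
  obtain ⟨T', I', hT', hI', M', Γ', hFn, hR'⟩ := as_final hd1 hGM0 hind' hfq bS hbS w
    (fun j => Sum.elim (lam j) (fun t => mu j (Sum.inl t))) (fun j => mu j (Sum.inr ())) (by
      intro j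
      rw [hlm j]
      simp only [Fintype.sum_sum_type, Sum.elim_inl, Sum.elim_inr, Fintype.sum_unique]
      rw [← add_assoc]
      congr 1
      congr 1
      · refine Finset.sum_congr rfl fun i _ => ?_
        rw [hf0 i]
      · refine Finset.sum_congr rfl fun t _ => ?_
        rw [hFτ t]
        rfl) hgen'
  -- the products
  have hmon : ∀ t, ∀ q, IsMon (M'.A t) (M'.x t) _ (Γ' q) := fun t q => hFn q t
  have hprod : ∀ t, ∀ (q : ℕ) (z : Fin q → K) (γ : Fin q → I' → ℤ),
      (∀ j, IsMon (M'.A t) (M'.x t) (z j) (γ j)) → ∀ e : Fin q → ℤ,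
      IsMon (M'.A t) (M'.x t) (∏ j, z j ^ e j) (fun i => ∑ j, e j * γ j i) := by
    intro t q z γ hz e
    choose w w0 wA wi hw using hz
    refine ⟨∏ j, w j ^ e j, Finset.prod_ne_zero_iff.2 fun j _ => zpow_ne_zero _ (w0 j),
      (M'.A t).prod_mem fun j _ => zpow_mem_of (wA j) (Or.inr (wi j)), ?_, ?_⟩
    · rw [← Finset.prod_inv_distrib]
      refine (M'.A t).prod_mem fun j _ => ?_
      rw [← zpow_neg]
      exact zpow_mem_of (wA j) (Or.inr (wi j))
    · rw [prod_zpow_comm (M'.x t) (M'.x0 t) γ e, ← Finset.prod_mul_distrib]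
      refine Finset.prod_congr rfl fun j _ => ?_
      rw [hw j, mul_zpow]
  refine ⟨T', I', hT', hI', M', fun b => Γ' (Sum.inl (Sum.inl b)) + Γ' (Sum.inr b) +
    fun i => ∑ j, ex b j * Γ' (Sum.inl (Sum.inr j)) i, ?_, hR'⟩
  intro b t
  have h1 := (((hmon t (Sum.inl (Sum.inl b))).mul (M'.x0 t) (hmon t (Sum.inr b))).mul (M'.x0 t)
    (hprod t n _ (fun j => Γ' (Sum.inl (Sum.inr j))) (fun j => hmon t (Sum.inl (Sum.inr j)))
      (ex b)))
  simp only [Sum.elim_inl, Sum.elim_inr, hg1, hy1] at h1
  rw [hvb b]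
  exact h1

end main

end Pool.Agent.Helper50.QuadA
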