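import Pool.Agent.Helper50.Quad.Norm

/-!
# Reduction of sums of products modulo `a ^ p - a`
-/

set_option autoImplicit false
set_option linter.unusedVariables false
set_option linter.unusedSectionVars false

universe u

open Module Pool.Agent.Helper50.Add Pool.Agent.Helper50.Quad

namespace Pool.Agent.Helper50.QuadA

section red

variable {p : ℕ} [Fact p.Prime] {k₀ : Type*} {k K : Type u} [Field k₀] [Finite k₀] [CharP k₀ p]
  [Field k] [Field K] [CharP K p] [Algebra k₀ k]
  [Algebra k K] [Algebra k₀ K] [IsScalarTower k₀ k K] {A : Subalgebra k K} {V : Submodule k₀ K}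
  {q s : ℕ} {b : Basis (Fin q) k₀ V} {P : Fin q → Prop}

/-- The assumptions on the basis. -/
structure RedH (p : ℕ) {k₀ : Type*} {k K : Type u} [Field k₀] [Field k] [Field K] [Algebra k₀ k]
    [Algebra k K] [Algebra k₀ K] (A : Subalgebra k K) (V : Submodule k₀ K) {q : ℕ}
    (b : Basis (Fin q) k₀ V) (P : Fin q → Prop) : Prop where
  pw : ∀ i, P i → ∃ β : V, (β : K) ^ p = b i
  ad : ∀ w i, b.repr w i ≠ 0 → dvA A V w (b i)
  one : ∃ u : V, (u : K) = 1
  reg : ∀ u u' : V, (u : K) * u' ∈ A ∨ ((u : K) * u')⁻¹ ∈ A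

variable (p A b P) in
/-- The pairs which are not removed. -/
def Good (i j : Fin q) : Prop := (b i : K) * b j ∈ A ∨ ¬ ((P i ∧ P j) ∨ (p = 2 ∧ i = j))

variable (p A b P) in
/-- The reduced functions up to `a ^ p - a`. -/
def InR (z : K) : Prop := ∃ (a0 : K) (Q : Fin q → Fin q → k₀),
  z = a0 ^ p - a0 + ∑ i, ∑ j, Q i j • ((b i : K) * b j) ∧ ∀ i j, Q i j ≠ 0 → Good p A b P i j

lemma InR.zero : InR p A b P (0 : K) := by
  refine ⟨0, fun _ _ => 0, ?_, fun i j h => absurd rfl h⟩
  rw [zero_pow (Fact.out : p.Prime).ne_zero]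
  simp

lemma InR.add {z z' : K} (h : InR p A b P z) (h' : InR p A b P z') : InR p A b P (z + z') := by
  obtain ⟨a, Q, h1, h2⟩ := h
  obtain ⟨a', Q', h1', h2'⟩ := h'
  refine ⟨a + a', fun i j => Q i j + Q' i j, ?_, ?_⟩
  · rw [h1, h1', add_pow_char]
    simp only [add_smul, Finset.sum_add_distrib]
    ring
  · intro i j hij
    beta_reduce at hij
    by_cases h0 : Q i j = 0
    · rw [h0, zero_add] at hij
      exact h2' i j hij
    · exact h2 i j h0

lemma InR.sum {ι : Type*} (S : Finset ι) (f : ι → K) (h : ∀ i ∈ S, InR p A b P (f i)) :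
    InR p A b P (∑ i ∈ S, f i) := by
  classical
  induction S using Finset.induction_on with
  | empty => rw [Finset.sum_empty]; exact InR.zero
  | insert i S hi ih =>
    rw [Finset.sum_insert hi]
    exact (h i (Finset.mem_insert_self i S)).add
      (ih fun j hj => h j (Finset.mem_insert_of_mem hj))

lemma InR.ap (a : K) : InR p A b P (a ^ p - a) := by
  refine ⟨a, fun _ _ => 0, ?_, fun i j h => absurd rfl h⟩
  simp

lemma InR.good {i j : Fin q} (h : Good p A b P i j) (c : k₀) :
    InR p A b P (c • ((b i : K) * b j)) := by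
  classical
  refine ⟨0, fun i' j' => if i' = i ∧ j' = j then c else 0, ?_, ?_⟩
  · rw [zero_pow (Fact.out : p.Prime).ne_zero, sub_zero, zero_add, Finset.sum_eq_single i,
      Finset.sum_eq_single j]
    · beta_reduce
      rw [if_pos ⟨rfl, rfl⟩]
    · intro j' _ hj'
      beta_reduce
      rw [if_neg fun h => hj' h.2, zero_smul]
    · intro h
      exact absurd (Finset.mem_univ _) h
    · intro i' _ hi'
      refine Finset.sum_eq_zero fun j' _ => ?_
      beta_reduce
      rw [if_neg fun h => hi' h.1, zero_smul]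
    · intro h
      exact absurd (Finset.mem_univ _) h
  · intro i' j' h'
    beta_reduce at h'
    by_cases h1 : i' = i ∧ j' = j
    · rw [h1.1, h1.2]
      exact h
    · rw [if_neg h1] at h'
      exact absurd rfl h'

lemma prod_expand (b : Basis (Fin q) k₀ V) (u u' : V) : (u : K) * u' =
    ∑ i, ∑ j, (b.repr u i * b.repr u' j) • ((b i : K) * b j) := by
  have h1 : ∀ u : V, (u : K) = ∑ i, b.repr u i • (b i : K) := by
    intro u
    have h2 := congrArg V.subtype (b.sum_repr u)
    rw [map_sum] at h2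
    have h3 : V.subtype u = (u : K) := rfl
    rw [h3] at h2
    conv_lhs => rw [← h2]
    exact Finset.sum_congr rfl fun i _ => by rw [map_smul]; rfl
  rw [h1 u, h1 u', Finset.sum_mul_sum]
  refine Finset.sum_congr rfl fun i _ => Finset.sum_congr rfl fun j _ => ?_
  rw [smul_mul_smul_comm]

variable (A b) in
/-- The rank of a pair. -/
noncomputable def rk (i j : Fin q) : ℕ :=
  Nat.card {kl : Fin q × Fin q // ∃ a ∈ A, (b i : K) * b j = a * ((b kl.1 : K) * b kl.2)}

lemma rk_le (i j : Fin q) : rk A b i j ≤ q * q := by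
  unfold rk
  have h1 := Nat.card_le_card_of_injective
    (Subtype.val : {kl : Fin q × Fin q // ∃ a ∈ A, (b i : K) * b j =
      a * ((b kl.1 : K) * b kl.2)} → Fin q × Fin q) Subtype.val_injective
  simpa using h1

lemma rk_lt {i j k l : Fin q} (h : ∃ a ∈ A, (b k : K) * b l = a * ((b i : K) * b j))
    (hn : ¬ ∃ a ∈ A, (b i : K) * b j = a * ((b k : K) * b l)) : rk A b i j < rk A b k l := by
  have h2 : {kl : Fin q × Fin q | ∃ a ∈ A, (b i : K) * b j = a * ((b kl.1 : K) * b kl.2)} ⊂
      {kl : Fin q × Fin q | ∃ a ∈ A, (b k : K) * b l = a * ((b kl.1 : K) * b kl.2)} := by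
    refine ⟨?_, fun h3 => hn (h3 (show (k, l) ∈ _ from ⟨1, A.one_mem, (one_mul _).symm⟩))⟩
    rintro kl ⟨a, ha, h3⟩
    obtain ⟨a', ha', h4⟩ := h
    exact ⟨a' * a, A.mul_mem ha' ha, by rw [h4, h3, mul_assoc]⟩
  have h3 := Set.ncard_lt_ncard h2 (Set.toFinite _)
  exact h3

/-- All products are reduced. -/
theorem inR_pair (h : RedH p A V b P) : ∀ (n : ℕ) (i j : Fin q), q * q - rk A b i j = n →
    ∀ c : k₀, InR p A b P (c • ((b i : K) * b j)) := by
  classical
  have hp : p.Prime := Fact.out
  intro n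
  induction n using Nat.strong_induction_on with
  | _ n ih =>
  intro i j hn c
  by_cases hg : Good p A b P i j
  · exact InR.good hg c
  unfold Good at hg
  push Not at hg
  obtain ⟨hA, hbad⟩ := hg
  by_cases hc : c = 0
  · rw [hc, zero_smul]
    exact InR.zero
  obtain ⟨m, hm⟩ : ∃ m : k₀, m ^ p = c := by
    obtain ⟨m, hm⟩ := (bijective_frobenius k₀ p).2 c
    exact ⟨m, hm⟩
  obtain ⟨u, u', hu⟩ : ∃ u u' : V, ((u : K) * u') ^ p = c • ((b i : K) * b j) := by
    rcases hbad with ⟨hi, hj⟩ | ⟨h2, rfl⟩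
    · obtain ⟨β, hβ⟩ := h.pw i hi
      obtain ⟨β', hβ'⟩ := h.pw j hj
      refine ⟨m • β, β', ?_⟩
      rw [Submodule.coe_smul, ← hβ, ← hβ', ← hm, smul_mul_assoc, smul_pow, mul_pow]
    · obtain ⟨u1, hu1⟩ := h.one
      refine ⟨m • b i, u1, ?_⟩
      rw [Submodule.coe_smul, hu1, mul_one, ← hm, smul_pow, h2, sq (b i : K)]
  have hc' : algebraMap k₀ K c ≠ 0 := (_root_.map_ne_zero _).2 hc
  have hcA : ∀ c : k₀, algebraMap k₀ K c ∈ A := fun c => by
    rw [IsScalarTower.algebraMap_apply k₀ k K]
    exact A.algebraMap_mem _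
  have hnu : (u : K) * u' ∉ A := by
    intro h1
    apply hA
    have h2 : (b i : K) * b j = algebraMap k₀ K c⁻¹ * ((u : K) * u') ^ p := by
      rw [hu, Algebra.smul_def, ← mul_assoc, ← map_mul, inv_mul_cancel₀ hc, map_one, one_mul]
    rw [h2]
    exact A.mul_mem (hcA _) (A.pow_mem h1 p)
  have hin : ((u : K) * u')⁻¹ ∈ A := (h.reg u u').resolve_left hnu
  have hu0 : (u : K) * u' ≠ 0 := fun h0 => hnu (by rw [h0]; exact A.zero_mem)
  obtain ⟨p', hp'⟩ : ∃ p', p = p' + 2 := ⟨p - 2, by have := hp.two_le; omega⟩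
  have hz : c • ((b i : K) * b j) = (((u : K) * u') ^ p - (u : K) * u') + (u : K) * u' := by
    rw [hu]
    ring
  rw [hz]
  refine (InR.ap _).add ?_
  rw [prod_expand b u u']
  refine InR.sum _ _ fun k' _ => InR.sum _ _ fun l' _ => ?_
  by_cases h0 : b.repr u k' * b.repr u' l' = 0
  · rw [h0, zero_smul]
    exact InR.zero
  obtain ⟨a, ha, h1⟩ := h.ad u k' (left_ne_zero_of_mul h0)
  obtain ⟨a', ha', h2⟩ := h.ad u' l' (right_ne_zero_of_mul h0)
  have h3 : (b k' : K) * b l' = (a * a') * ((u : K) * u') := by rw [h1, h2]; ring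
  have h4 : (u : K) * u' = (algebraMap k₀ K c * ((u : K) * u')⁻¹ ^ (p' + 1)) *
      ((b i : K) * b j) := by
    have h5 : algebraMap k₀ K c * ((b i : K) * b j) = ((u : K) * u') ^ (p' + 2) := by
      rw [← Algebra.smul_def, ← hu, hp']
    have h6 : (algebraMap k₀ K c * ((u : K) * u')⁻¹ ^ (p' + 1)) * ((b i : K) * b j) =
        ((u : K) * u')⁻¹ ^ (p' + 1) * (algebraMap k₀ K c * ((b i : K) * b j)) := by ring
    rw [h6, h5, pow_succ ((u : K) * u') (p' + 1), ← mul_assoc, ← mul_pow, inv_mul_cancel₀ hu0,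
      one_pow, one_mul]
  have hlt : rk A b i j < rk A b k' l' := by
    refine rk_lt ?_ ?_
    · refine ⟨(a * a') * (algebraMap k₀ K c * ((u : K) * u')⁻¹ ^ (p' + 1)),
        A.mul_mem (A.mul_mem ha ha') (A.mul_mem (hcA _) (A.pow_mem hin _)), ?_⟩
      calc (b k' : K) * b l' = (a * a') * ((u : K) * u') := h3
        _ = (a * a') * ((algebraMap k₀ K c * ((u : K) * u')⁻¹ ^ (p' + 1)) *
            ((b i : K) * b j)) := by rw [← h4]
        _ = _ := by ring
    · rintro ⟨a'', ha'', h5⟩
      apply hnu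
      have h6 : ((u : K) * u') ^ (p' + 1) = algebraMap k₀ K c * a'' * (a * a') := by
        apply mul_right_cancel₀ hu0
        rw [← pow_succ, show p' + 1 + 1 = p by omega, hu, h5, h3, Algebra.smul_def]
        ring
      have h7 : (u : K) * u' = ((u : K) * u')⁻¹ ^ p' * ((u : K) * u') ^ (p' + 1) := by
        rw [pow_succ ((u : K) * u'), ← mul_assoc, ← mul_pow, inv_mul_cancel₀ hu0, one_pow, one_mul]
      rw [h7, h6]
      exact A.mul_mem (A.pow_mem hin _) (A.mul_mem (A.mul_mem (hcA _) ha'') (A.mul_mem ha ha'))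
  refine ih _ ?_ k' l' rfl _
  have h5 := rk_le (A := A) (b := b) k' l'
  omega

/-- The reduced form. -/
theorem exists_red (h : RedH p A V b P) (v v' : Fin s → V) :
    ∃ (a0 : K) (Q : Fin q → Fin q → k₀),
      ∑ t, (v t : K) * v' t = a0 ^ p - a0 + ∑ i, ∑ j, Q i j • ((b i : K) * b j) ∧
      ∀ i j, Q i j ≠ 0 → (b i : K) * b j ∈ A ∨ ((¬ P i ∨ ¬ P j) ∧ Q i j + Q j i ≠ 0) := by
  classical
  have hp : p.Prime := Fact.out
  have h1 : InR p A b P (∑ t, (v t : K) * v' t) := by
    refine InR.sum _ _ fun t _ => ?_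
    rw [prod_expand b]
    exact InR.sum _ _ fun i _ => InR.sum _ _ fun j _ => inR_pair h _ i j rfl _
  obtain ⟨a0, Q, h2, h3⟩ := h1
  let Q' : Fin q → Fin q → k₀ := fun i j => if i < j then Q i j + Q j i else
    if i = j then Q i i else 0
  refine ⟨a0, Q', ?_, ?_⟩
  · rw [h2]
    congr 1
    have h4 : ∀ F : Fin q → Fin q → K, ∑ i, ∑ j, F i j =
        ∑ i, ∑ j, (if i < j then F i j + F j i else if i = j then F i i else 0) := by
      intro F
      have e1 : ∀ i j, F i j = (if i < j then F i j else 0) + (if i = j then F i j else 0) +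
          (if j < i then F i j else 0) := by
        intro i j
        rcases lt_trichotomy i j with h | h | h
        · rw [if_pos h, if_neg h.ne, if_neg h.not_gt, add_zero, add_zero]
        · rw [if_neg h.not_lt, if_pos h, if_neg (h ▸ lt_irrefl _), zero_add, add_zero]
        · rw [if_neg h.not_gt, if_neg h.ne', if_pos h, zero_add, zero_add]
      have e2 : ∀ i j, (if i < j then F i j + F j i else if i = j then F i i else 0) =
          (if i < j then F i j else 0) + (if i = j then F i j else 0) +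
            (if i < j then F j i else 0) := by
        intro i j
        rcases lt_trichotomy i j with h | h | h
        · rw [if_pos h, if_pos h, if_neg h.ne, if_pos h, add_zero]
        · subst h
          simp
        · rw [if_neg h.not_gt, if_neg h.not_gt, if_neg h.ne', if_neg h.not_gt, zero_add, add_zero,
            if_neg h.ne']
      rw [Finset.sum_congr rfl fun i _ => Finset.sum_congr rfl fun j _ => e1 i j,
        Finset.sum_congr rfl fun i _ => Finset.sum_congr rfl fun j _ => e2 i j]
      simp only [Finset.sum_add_distrib]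
      congr 1
      exact Finset.sum_comm
    rw [h4]
    refine Finset.sum_congr rfl fun i _ => Finset.sum_congr rfl fun j _ => ?_
    change _ = (if i < j then Q i j + Q j i else if i = j then Q i i else 0) • _
    split_ifs with h5 h6
    · rw [add_smul, mul_comm (b j : K)]
    · rw [h6]
    · rw [zero_smul]
  · intro i j hij
    have hQij : Q' i j = if i < j then Q i j + Q j i else if i = j then Q i i else 0 := rfl
    rcases lt_trichotomy i j with hlt | heq | hgt
    · rw [hQij, if_pos hlt] at hij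
      have hji : Q' j i = 0 := by
        change (if j < i then _ else if j = i then _ else 0) = (0 : k₀)
        rw [if_neg hlt.not_gt, if_neg hlt.ne']
      rw [hQij, if_pos hlt, hji, add_zero]
      have hor : Good p A b P i j := by
        by_cases h0 : Q i j = 0
        · rw [h0, zero_add] at hij
          rcases h3 j i hij with h4 | h4
          · left
            rw [mul_comm]
            exact h4
          · right
            rintro (⟨h5, h6⟩ | ⟨h5, h6⟩)
            · exact h4 (Or.inl ⟨h6, h5⟩)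
            · exact h4 (Or.inr ⟨h5, h6.symm⟩)
        · exact h3 i j h0
      rcases hor with h4 | h4
      · exact Or.inl h4
      · right
        refine ⟨?_, hij⟩
        by_contra hcon
        push Not at hcon
        exact h4 (Or.inl hcon)
    · subst heq
      rw [hQij, if_neg (lt_irrefl _), if_pos rfl] at hij
      rw [hQij, if_neg (lt_irrefl _), if_pos rfl]
      rcases h3 i i hij with h4 | h4
      · exact Or.inl h4
      · right
        have hP : ¬ P i := fun h5 => h4 (Or.inl ⟨h5, h5⟩)
        have hp2 : p ≠ 2 := fun h5 => h4 (Or.inr ⟨h5, rfl⟩)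
        refine ⟨Or.inl hP, ?_⟩
        rw [← two_mul]
        refine mul_ne_zero ?_ hij
        intro h0
        have h5 : ((2 : ℕ) : k₀) = 0 := by exact_mod_cast h0
        have h6 := (CharP.cast_eq_zero_iff k₀ p 2).1 h5
        exact hp2 ((Nat.prime_dvd_prime_iff_eq hp Nat.prime_two).1 h6)
    · rw [hQij, if_neg hgt.not_gt, if_neg hgt.ne'] at hij
      exact absurd rfl hij

end red

end Pool.Agent.Helper50.QuadA
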