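import Pool.Agent.Helper50.QuadA.Vec
import Pool.Agent.Helper50.QuadA.Red

/-!
# Artin-Schreier normal forms of sums of products on a chart
-/

set_option autoImplicit false
set_option linter.unusedVariables false
set_option linter.unusedSectionVars false

universe u

open Finsupp Module Pool.Agent.W558 Pool.Agent.W177.WD Pool.Agent.TH214 Pool.Agent.TH214.V
  Pool.Agent.Helper50.Add Pool.Agent.Helper50.Quad

namespace Pool.Agent.Helper50.QuadA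

section chart

variable {p : ℕ} [Fact p.Prime] {k₀ : Type*} {k K : Type u} [Field k₀] [Finite k₀] [CharP k₀ p]
  [Field k] [Field K] [CharP K p] [Algebra k₀ k]
  [Algebra k K] [Algebra k₀ K] [IsScalarTower k₀ k K] {V : Submodule k₀ K} {I : Type}
  [Fintype I] {r s : ℕ} {y : Fin r → K}

/-- The data of a chart. -/
structure ChartA (p : ℕ) [Fact p.Prime] {k₀ : Type*} {k K : Type u} [Field k₀] [Finite k₀]
    [CharP k₀ p] [Field k] [Field K] [CharP K p] [Algebra k K]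
    [Algebra k₀ K] {I : Type} (A : Subalgebra k K) (V : Submodule k₀ K) {r : ℕ} (y : Fin r → K)
    (Z : Fin r → I → ℤ) (f : K) {q : ℕ}
    (b : Basis (Fin q) k₀ V) (P : Fin q → Prop) (a0 : K) (Q : Fin q → Fin q → k₀) (z0 : K)
    (γ : I → ℤ) : Prop where
  np : ∀ w ∈ Wp p V, ∀ i, ¬ P i → b.repr w i = 0
  ad : ∀ w i, b.repr w i ≠ 0 → dvA A V w (b i)
  eq : f = a0 ^ p - a0 + ∑ i, ∑ j, Q i j • ((b i : K) * b j)
  dv : ∀ i j, Q i j ≠ 0 → ∃ a ∈ A, (b i : K) * b j = a * z0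
  di : (z0 = 1 ∧ γ = 0) ∨ ∃ (i0 : Fin q) (u0 : V), ¬ P i0 ∧ u0 ≠ 0 ∧
    (∀ j, b.repr u0 j = Q i0 j + Q j i0) ∧ z0 = b i0 * u0 ∧ z0 ∉ A ∧
    γ = zx y Z (b i0 : K) + zx y Z (u0 : K)

variable {A : Subalgebra k K} {x : I → K} {Z : Fin r → I → ℤ}

lemma isMon_one (hx0 : ∀ i, x i ≠ 0) : IsMon A x (1 : K) 0 := by
  refine ⟨1, one_ne_zero, A.one_mem, by rw [inv_one]; exact A.one_mem, ?_⟩
  simp

lemma reg_of (hxA : ∀ i, x i ∈ A) (hx0 : ∀ i, x i ≠ 0) (hmon : ∀ j, IsMon A x (y j) (Z j))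
    (hc0 : ∀ i j, LeN A x 0 (Z i + Z j) ∨ LeN A x (Z i + Z j) 0)
    (hys : ∀ v ∈ V, v ≠ 0 → ∃ i, y i = v) (u u' : V) :
    (u : K) * u' ∈ A ∨ ((u : K) * u')⁻¹ ∈ A := by
  by_cases hu : (u : K) = 0
  · left
    rw [hu, zero_mul]
    exact A.zero_mem
  by_cases hu' : (u' : K) = 0
  · left
    rw [hu', mul_zero]
    exact A.zero_mem
  obtain ⟨i, hi⟩ := hys u u.2 hu
  obtain ⟨j, hj⟩ := hys u' u'.2 hu'
  rw [← hi, ← hj]
  rcases hc0 i j with h | h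
  · left
    obtain ⟨a, ha, h1⟩ := le_dvd hxA hx0 (isMon_one hx0) ((hmon i).mul hx0 (hmon j)) h
    rw [h1, mul_one]
    exact ha
  · right
    obtain ⟨a, ha, h1⟩ := le_dvd hxA hx0 ((hmon i).mul hx0 (hmon j)) (isMon_one hx0) h
    rw [inv_eq_of_mul_eq_one_left h1.symm]
    exact ha

/-- The existence of the data. -/
theorem exists_chartA (hxA : ∀ i, x i ∈ A) (hx0 : ∀ i, x i ≠ 0)
    (hmon : ∀ j, IsMon A x (y j) (Z j))
    (hc : ∀ i j, LeN A x (Z i) (Z j) ∨ LeN A x (Z j) (Z i))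
    (hc2 : ∀ i j i' j', LeN A x (Z i + Z j) (Z i' + Z j') ∨ LeN A x (Z i' + Z j') (Z i + Z j))
    (hc0 : ∀ i j, LeN A x 0 (Z i + Z j) ∨ LeN A x (Z i + Z j) 0)
    (hys : ∀ v ∈ V, v ≠ 0 → ∃ i, y i = v) (h1V : (1 : K) ∈ V) [FiniteDimensional k₀ V]
    (v v' : Fin s → V) :
    ∃ (q : ℕ) (b : Basis (Fin q) k₀ V) (P : Fin q → Prop) (a0 : K) (Q : Fin q → Fin q → k₀)
      (z0 : K) (γ : I → ℤ), ChartA p A V y Z (∑ t, (v t : K) * v' t) b P a0 Q z0 γ := by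
  classical
  have hfin : Finite V := Module.finite_of_finite k₀
  have hD := dvA_Dv A (tot_of hxA hx0 hmon hc hys)
  obtain ⟨q, b, P, h1, h2, h3⟩ := exists_adapted hD (Wp p V)
  have hreg := reg_of (A := A) (V := V) hxA hx0 hmon hc0 hys
  have hH : RedH p A V b P := by
    refine ⟨?_, h3, ⟨⟨1, h1V⟩, rfl⟩, hreg⟩
    intro i hi
    obtain ⟨-, u, hu1, hu⟩ := h1 i hi
    exact ⟨⟨u, hu1⟩, hu⟩
  obtain ⟨a0, Q, heq, hQ⟩ := exists_red hH v v'
  let U : Fin q → V := fun i => ∑ j, (Q i j + Q j i) • b j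
  have hU : ∀ i j, b.repr (U i) j = Q i j + Q j i := by
    intro i j
    exact b.repr_sum_self (fun j => Q i j + Q j i) ▸ rfl
  have hb0 : ∀ i, (b i : K) ≠ 0 := fun i h => b.ne_zero i (Subtype.ext h)
  by_cases hN : Nonempty {i // ¬ P i ∧ U i ≠ 0 ∧ (b i : K) * U i ∉ A}
  · obtain ⟨⟨i0, h4, h5, h6⟩, hmin⟩ := Pool.Agent.W349.WD.Sum.exists_min
      (fun i j : {i // ¬ P i ∧ U i ≠ 0 ∧ (b i : K) * U i ∉ A} => ∃ a ∈ A,
        (b j.1 : K) * U j.1 = a * ((b i.1 : K) * U i.1)) (by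
        rintro ⟨i, hi, hi', -⟩ ⟨j, hj, hj', -⟩
        obtain ⟨l1, e1⟩ := hys (b i) (b i).2 (hb0 i)
        obtain ⟨l2, e2⟩ := hys (U i) (U i).2 fun h => hi' (Subtype.ext h)
        obtain ⟨l3, e3⟩ := hys (b j) (b j).2 (hb0 j)
        obtain ⟨l4, e4⟩ := hys (U j) (U j).2 fun h => hj' (Subtype.ext h)
        simp only [← e1, ← e2, ← e3, ← e4]
        rcases hc2 l1 l2 l3 l4 with h | h
        · left
          exact le_dvd hxA hx0 ((hmon l1).mul hx0 (hmon l2)) ((hmon l3).mul hx0 (hmon l4)) h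
        · right
          exact le_dvd hxA hx0 ((hmon l3).mul hx0 (hmon l4)) ((hmon l1).mul hx0 (hmon l2)) h) (by
        rintro i j l ⟨a, ha, h6⟩ ⟨a', ha', h7⟩
        exact ⟨a' * a, A.mul_mem ha' ha, by rw [h7, h6, mul_assoc]⟩)
    have hz0 : (b i0 : K) * U i0 ≠ 0 := fun h => h6 (by rw [h]; exact A.zero_mem)
    have hzi : ((b i0 : K) * U i0)⁻¹ ∈ A := (hreg (b i0) (U i0)).resolve_left h6
    have hA : ∀ z ∈ A, ∃ a ∈ A, z = a * ((b i0 : K) * U i0) := fun z hz =>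
      ⟨z * ((b i0 : K) * U i0)⁻¹, A.mul_mem hz hzi, by
        rw [inv_mul_cancel_right₀ hz0]⟩
    have hside : ∀ i j, ¬ P i → Q i j + Q j i ≠ 0 →
        ∃ a ∈ A, (b i : K) * b j = a * ((b i0 : K) * U i0) := by
      intro i j hi hij
      have hUi : U i ≠ 0 := by
        intro h0
        have h7 := hU i j
        rw [h0] at h7
        simp only [map_zero, Finsupp.zero_apply] at h7
        exact hij h7.symm
      obtain ⟨a, ha, h7⟩ := h3 (U i) j (by rw [hU]; exact hij)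
      have h8 : (b i : K) * b j = a * ((b i : K) * U i) := by rw [h7]; ring
      by_cases h9 : (b i : K) * U i ∈ A
      · refine hA _ ?_
        rw [h8]
        exact A.mul_mem ha h9
      · obtain ⟨a', ha', h10⟩ := hmin ⟨i, hi, hUi, h9⟩
        refine ⟨a * a', A.mul_mem ha ha', ?_⟩
        rw [h8]
        have h11 : (b i : K) * U i = a' * ((b i0 : K) * U i0) := h10
        rw [h11, mul_assoc]
    refine ⟨q, b, P, a0, Q, (b i0 : K) * U i0, _, h2, h3, heq, ?_,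
      Or.inr ⟨i0, U i0, h4, h5, hU i0, rfl, h6, rfl⟩⟩
    intro i j hij
    rcases hQ i j hij with h7 | ⟨h7 | h7, h8⟩
    · exact hA _ h7
    · exact hside i j h7 h8
    · obtain ⟨a, ha, h9⟩ := hside j i h7 (by rw [add_comm]; exact h8)
      exact ⟨a, ha, by rw [mul_comm, h9]⟩
  · rw [not_nonempty_iff] at hN
    have hside : ∀ i j, ¬ P i → Q i j + Q j i ≠ 0 → (b i : K) * b j ∈ A := by
      intro i j hi hij
      have hUi : U i ≠ 0 := by
        intro h0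
        have h7 := hU i j
        rw [h0] at h7
        simp only [map_zero, Finsupp.zero_apply] at h7
        exact hij h7.symm
      obtain ⟨a, ha, h7⟩ := h3 (U i) j (by rw [hU]; exact hij)
      have h8 : (b i : K) * b j = a * ((b i : K) * U i) := by rw [h7]; ring
      rw [h8]
      refine A.mul_mem ha ?_
      by_contra h9
      exact hN.false ⟨i, hi, hUi, h9⟩
    refine ⟨q, b, P, a0, Q, 1, 0, h2, h3, heq, ?_, Or.inl ⟨rfl, rfl⟩⟩
    intro i j hij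
    refine ⟨(b i : K) * b j, ?_, (mul_one _).symm⟩
    rcases hQ i j hij with h7 | ⟨h7 | h7, h8⟩
    · exact h7
    · exact hside i j h7 h8
    · rw [mul_comm]
      exact hside j i h7 (by rw [add_comm]; exact h8)

variable {f : K} {q : ℕ} {b : Basis (Fin q) k₀ V} {P : Fin q → Prop} {a0 z0 : K}
  {Q : Fin q → Fin q → k₀} {γ : I → ℤ}

/-- The exponents are not positive. -/
lemma ChartA.le_zero (hxA : ∀ i, x i ∈ A) (hx0 : ∀ i, x i ≠ 0)
    (hmon : ∀ j, IsMon A x (y j) (Z j))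
    (hc0 : ∀ i j, LeN A x 0 (Z i + Z j) ∨ LeN A x (Z i + Z j) 0)
    (hys : ∀ v ∈ V, v ≠ 0 → ∃ i, y i = v) (h : ChartA p A V y Z f b P a0 Q z0 γ) :
    LeN A x γ 0 := by
  rcases h.di with ⟨-, h1⟩ | ⟨i0, u0, h1, h2, h3, h4, h5, h6⟩
  · rw [h1]
    exact LeN.refl 0
  · obtain ⟨l1, e1, f1⟩ := zx_idx (Z := Z) hys (b.ne_zero i0)
    obtain ⟨l2, e2, f2⟩ := zx_idx (Z := Z) hys h2
    rw [h6, f1, f2]
    refine (hc0 l1 l2).resolve_left fun h7 => h5 ?_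
    obtain ⟨a, ha, h8⟩ := le_dvd hxA hx0 (isMon_one hx0) ((hmon l1).mul hx0 (hmon l2)) h7
    rw [h4, ← e1, ← e2, h8, mul_one]
    exact ha

/-- The exponents of the terms. -/
lemma ChartA.le_term (hxA : ∀ i, x i ∈ A) (hx0 : ∀ i, x i ≠ 0)
    (hmon : ∀ j, IsMon A x (y j) (Z j))
    (hc2 : ∀ i j i' j', LeN A x (Z i + Z j) (Z i' + Z j') ∨ LeN A x (Z i' + Z j') (Z i + Z j))
    (hc0 : ∀ i j, LeN A x 0 (Z i + Z j) ∨ LeN A x (Z i + Z j) 0)
    (hys : ∀ v ∈ V, v ≠ 0 → ∃ i, y i = v) (h : ChartA p A V y Z f b P a0 Q z0 γ) {i j : Fin q}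
    (hij : Q i j ≠ 0) {l l' : Fin r} (hl : y l = (b i : K)) (hl' : y l' = (b j : K)) :
    LeN A x γ (Z l + Z l') := by
  obtain ⟨a, ha, h0⟩ := h.dv i j hij
  rcases h.di with ⟨h1, h2⟩ | ⟨i0, u0, h1, h2, h3, h4, h5, h6⟩
  · rw [h2]
    refine dvd_le hxA hx0 (isMon_one hx0) ((hmon l).mul hx0 (hmon l')) (hc0 l l') ?_
    exact ⟨a, ha, by rw [hl, hl', h0, h1]⟩
  · obtain ⟨l1, e1, f1⟩ := zx_idx (Z := Z) hys (b.ne_zero i0)
    obtain ⟨l2, e2, f2⟩ := zx_idx (Z := Z) hys h2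
    rw [h6, f1, f2]
    refine dvd_le hxA hx0 ((hmon l1).mul hx0 (hmon l2)) ((hmon l).mul hx0 (hmon l'))
      (hc2 l1 l2 l l') ?_
    exact ⟨a, ha, by rw [hl, hl', e1, e2, h0, h4]⟩

end chart

end Pool.Agent.Helper50.QuadA
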