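import Pool.Agent.Helper50.Quad.Vec

/-!
# The logarithmic vector of a reduced sum of products
-/

set_option autoImplicit false
set_option linter.unusedVariables false
set_option linter.unusedSectionVars false

universe u

open Finsupp Module Pool.Agent.W558 Pool.Agent.W177.WD Pool.Agent.TH214 Pool.Agent.TH214.V
  Pool.Agent.Helper50.Add Pool.Agent.Helper50.Quad

namespace Pool.Agent.Helper50.QuadA

section vec

variable {k₀ : Type*} {k K : Type u} [Field k₀] [Finite k₀] [Field k] [Field K] [Algebra k₀ k]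
  [Algebra k K] [Algebra k₀ K] [IsScalarTower k₀ k K] {V : Submodule k₀ K} {I : Type}
  [Fintype I] {r : ℕ} {y : Fin r → K} {A : Subalgebra k K} {x : I → K} {Z : Fin r → I → ℤ}
  {q : ℕ} {b : Basis (Fin q) k₀ V} {i0 : Fin q} {n : I → ℤ}

/-- The remaining part lies in the ring, and its differential does not vanish. -/
theorem point_vecA (hxA : ∀ i, x i ∈ A) (hx0 : ∀ i, x i ≠ 0)
    (hmon : ∀ j, IsMon A x (y j) (Z j))
    (hc2 : ∀ i j i' j', LeN A x (Z i + Z j) (Z i' + Z j') ∨ LeN A x (Z i' + Z j') (Z i + Z j))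
    (hys : ∀ v ∈ V, v ≠ 0 → ∃ i, y i = v) (Q : Fin q → Fin q → k₀) (u0 : V)
    (hu0 : ∀ j, b.repr u0 j = Q i0 j + Q j i0) (hne : u0 ≠ 0)
    (hQ : ∀ i j, Q i j ≠ 0 → ∃ a ∈ A, (b i : K) * b j = a * ((b i0 : K) * u0))
    (hn : ∀ a, n a = (zx y Z (b i0 : K) + zx y Z (u0 : K)) a ∨ (x a)⁻¹ ∈ A)
    {κ : Type u} [Field κ] [Algebra k κ] {φ : A →ₐ[k] κ} :
    (∑ i, ∑ j, Q i j • ((b i : K) * b j)) * ∏ i, x i ^ (-n i) ∈ A ∧
    ∀ (V' : LT φ x) (l : Fin q → Fin r), (∀ i, y (l i) = (b i : K)) → ∀ (α : Fin q → κ),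
      (∀ i, LGF V' (Z (l i)) (y (l i)) (α i)) → α i0 ≠ 0 → (∀ i, i ≠ i0 → α i = 0) →
      ∀ hh : (∑ i, ∑ j, Q i j • ((b i : K) * b j)) * ∏ i, x i ^ (-n i) ∈ A, om V' n hh ≠ 0 := by
  classical
  let X : K := ∏ i, x i ^ (-n i)
  obtain ⟨hU0, hU1, hU2⟩ := unit_of hxA hx0
    ((zx_mon hmon hys (b.ne_zero i0)).mul hx0 (zx_mon hmon hys hne))
    fun i => (hn i).imp_left Eq.symm
  let u : Fin q × Fin q → K := fun ij => (b ij.1 : K) * b ij.2 * X
  have hmem : ∀ i j, Q i j ≠ 0 → u (i, j) ∈ A := by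
    intro i j hij
    obtain ⟨a, ha, h1⟩ := hQ i j hij
    change (b i : K) * b j * X ∈ A
    rw [h1, mul_assoc]
    exact A.mul_mem ha hU1
  let S : Finset (Fin q × Fin q) := Finset.univ.filter fun ij => Q ij.1 ij.2 ≠ 0
  have hS : ∀ m ∈ S, u m ∈ A := fun m hm => hmem m.1 m.2 (Finset.mem_filter.1 hm).2
  have hsum : (∑ i, ∑ j, Q i j • ((b i : K) * b j)) * X =
      ∑ m ∈ S, algebraMap k₀ k (Q m.1 m.2) • u m := by
    have h1 : ∑ m ∈ S, algebraMap k₀ k (Q m.1 m.2) • u m =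
        ∑ m : Fin q × Fin q, algebraMap k₀ k (Q m.1 m.2) • u m := by
      refine Finset.sum_filter_of_ne fun m _ hm h0 => hm ?_
      rw [h0, map_zero, zero_smul]
    rw [h1, Fintype.sum_prod_type, Finset.sum_mul]
    refine Finset.sum_congr rfl fun i _ => ?_
    rw [Finset.sum_mul]
    refine Finset.sum_congr rfl fun j _ => ?_
    rw [algebraMap_smul, smul_mul_assoc]
  have hmemA : (∑ i, ∑ j, Q i j • ((b i : K) * b j)) * X ∈ A := by
    rw [hsum]
    exact A.sum_mem fun m hm => A.smul_mem (hS m hm) _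
  refine ⟨hmemA, ?_⟩
  intro V' l hl α hα hα0 hα1 hh
  let Φ : K → κ := fun z => if hz : z ∈ A then φ ⟨z, hz⟩ else 0
  have hΦ : ∀ z (hz : z ∈ A), Φ z = φ ⟨z, hz⟩ := fun z hz => dif_pos hz
  let F : Fin q → Fin q → κ := fun i j => Φ (u (i, j))
  have hF : ∀ i j, F i j = F j i := by
    intro i j
    change Φ ((b i : K) * b j * X) = Φ ((b j : K) * b i * X)
    rw [mul_comm (b i : K)]
  have hh' : ∑ m ∈ S, algebraMap k₀ k (Q m.1 m.2) • u m ∈ A := by
    rw [← hsum]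
    exact hh
  have hom : om V' n hh = om V' n hh' := by
    congr 1
  -- the exponents
  obtain ⟨l1, e1, f1⟩ := zx_idx (Z := Z) hys (b.ne_zero i0)
  obtain ⟨l2, e2, f2⟩ := zx_idx (Z := Z) hys hne
  have hle : ∀ i j, Q i j ≠ 0 → LeN A x n (Z (l i) + Z (l j)) := by
    intro i j hij
    have h1 : LeN A x (Z l1 + Z l2) (Z (l i) + Z (l j)) := by
      refine dvd_le hxA hx0 ((hmon l1).mul hx0 (hmon l2)) ((hmon _).mul hx0 (hmon _))
        (hc2 l1 l2 _ _) ?_
      rw [e1, e2, hl, hl]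
      exact hQ i j hij
    intro a
    rcases hn a with h2 | h2
    · rw [f1, f2] at h2
      rw [h2]
      exact h1 a
    · exact Or.inr h2
  have h1 : om V' n hh' = ∑ m ∈ S, algebraMap k κ (algebraMap k₀ k (Q m.1 m.2)) *
      (F m.1 m.2 * (α m.1 + α m.2)) := by
    refine om_smul_sum V' n S _ u hS _ ?_ hh'
    rintro ⟨i, j⟩ hm
    have hQij : Q i j ≠ 0 := (Finset.mem_filter.1 hm).2
    have h2 : LGF V' (Z (l i) + Z (l j)) ((b i : K) * b j) (α i + α j) := by
      have h3 := (hα i).mul hx0 (hα j)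
      rw [hl, hl] at h3
      exact h3
    refine (om_mon hx0 hxA h2 n (hle i j hQij) (hS _ hm)).trans ?_
    change _ = Φ (u (i, j)) * (α i + α j)
    rw [hΦ _ (hS _ hm)]
  have h2 : ∑ m ∈ S, algebraMap k κ (algebraMap k₀ k (Q m.1 m.2)) *
      (F m.1 m.2 * (α m.1 + α m.2)) = ∑ i, ∑ j, algebraMap k κ (algebraMap k₀ k (Q i j)) *
      (F i j * (α i + α j)) := by
    rw [← Fintype.sum_prod_type (f := fun m : Fin q × Fin q =>
      algebraMap k κ (algebraMap k₀ k (Q m.1 m.2)) * (F m.1 m.2 * (α m.1 + α m.2)))]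
    refine Finset.sum_filter_of_ne fun m _ hm h0 => hm ?_
    rw [h0, map_zero, map_zero, zero_mul]
  have h3 := sum_dir (fun i j => algebraMap k κ (algebraMap k₀ k (Q i j))) F hF i0 (α i0) α rfl hα1
  have h4 : ∀ j, algebraMap k κ (algebraMap k₀ k (Q i0 j)) +
      algebraMap k κ (algebraMap k₀ k (Q j i0)) =
        algebraMap k κ (algebraMap k₀ k (b.repr u0 j)) := by
    intro j
    rw [hu0 j, map_add, map_add]
  simp only [h4] at h3
  -- the value at the minimal product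
  let S' : Finset (Fin q) := Finset.univ.filter fun j => b.repr u0 j ≠ 0
  have hQ' : ∀ j, b.repr u0 j ≠ 0 → u (i0, j) ∈ A := by
    intro j hj
    rw [hu0 j] at hj
    by_cases h5 : Q i0 j = 0
    · rw [h5, zero_add] at hj
      have h6 := hmem j i0 hj
      change (b i0 : K) * b j * X ∈ A
      rw [mul_comm (b i0 : K)]
      exact h6
    · exact hmem i0 j h5
  obtain ⟨h5, h6⟩ := phi_sum (φ := φ) S' (fun j => algebraMap k₀ k (b.repr u0 j))
    (fun j => u (i0, j)) (fun j => F i0 j) (by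
      intro j hj
      have h5 : u (i0, j) ∈ A := hQ' j (Finset.mem_filter.1 hj).2
      exact ⟨h5, (hΦ _ h5).symm⟩)
  have h7 : ∑ j ∈ S', algebraMap k κ (algebraMap k₀ k (b.repr u0 j)) * F i0 j =
      ∑ j, algebraMap k κ (algebraMap k₀ k (b.repr u0 j)) * F i0 j := by
    refine Finset.sum_filter_of_ne fun j _ hj h0 => hj ?_
    rw [h0, map_zero, map_zero, zero_mul]
  have h8 : ∑ j ∈ S', algebraMap k₀ k (b.repr u0 j) • u (i0, j) =
      ((b i0 : K) * u0) * X := by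
    have h9 : ∑ j ∈ S', algebraMap k₀ k (b.repr u0 j) • u (i0, j) =
        ∑ j, algebraMap k₀ k (b.repr u0 j) • u (i0, j) := by
      refine Finset.sum_filter_of_ne fun m _ hm h0 => hm ?_
      rw [h0, map_zero, zero_smul]
    have h10 : (u0 : K) = ∑ j, b.repr u0 j • (b j : K) := by
      have h2 := congrArg V.subtype (b.sum_repr u0)
      rw [map_sum] at h2
      have h3 : V.subtype u0 = (u0 : K) := rfl
      rw [h3] at h2
      conv_lhs => rw [← h2]
      refine Finset.sum_congr rfl fun i _ => ?_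
      rw [map_smul]
      rfl
    rw [h9, h10, Finset.mul_sum, Finset.sum_mul]
    refine Finset.sum_congr rfl fun j _ => ?_
    rw [algebraMap_smul, mul_smul_comm, smul_mul_assoc]
  have h9 : φ ⟨_, hU1⟩ ≠ 0 := by
    intro h0
    have h10 : φ ⟨_, hU1⟩ * φ ⟨_, hU2⟩ = 1 := by
      rw [← map_mul, ← map_one φ]
      congr 1
      exact Subtype.ext (mul_inv_cancel₀ hU0)
    rw [h0, zero_mul] at h10
    exact zero_ne_one h10
  have h10 : φ ⟨_, h5⟩ = φ ⟨_, hU1⟩ := by
    congr 1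
    exact Subtype.ext h8
  rw [hom, h1, h2, h3, ← h7, ← h6, h10]
  exact mul_ne_zero hα0 h9

end vec

end Pool.Agent.Helper50.QuadA
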